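import Pool.Agent.helper65.NTC.CombR

/-!
# MP_c8d30a (A), section 3: isolated blue letters, the counting
-/

set_option autoImplicit false

namespace NTC

universe v
variable {ι : Type v}

/-- `G` is the number of the end gap. -/
theorem combB (S : Finset ι) (hS : 300 ≤ S.card) (f s : ι → ℕ) (g : ℕ → ℕ) (G : ℕ) (hg : ∀ a b, a ≤ b → g a ≤ g b)
    (hfs : ∀ u ∈ S, f u < s u)
    (hff : ∀ u ∈ S, ∀ v ∈ S, f u = f v → u = v) (hss : ∀ u ∈ S, ∀ v ∈ S, s u = s v → u = v) (hfs' : ∀ u ∈ S, ∀ v ∈ S, f u ≠ s v)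
    (H0 : ∀ u ∈ S, g (f u) ≠ G)
    (H1 : ∀ u ∈ S, ∀ v ∈ S, s u < f v → g (f u) = g (s v) → g (s v) ≠ G → False)
    (H2 : ∀ u ∈ S, ∀ v ∈ S, f u < f v → f v < s u → s u < s v → g (f u) = g (s v) → g (s v) ≠ G → False)
    (H3 : ∀ a ∈ S, ∀ b ∈ S, ∀ d ∈ S, ∀ e ∈ S, f a < f b → f b < f d → f d < f e → s e < s d → s d < s b → s b < s a →
      g (f a) = g (s a) → g (s a) ≠ G → False)
    (H4 : ∀ a ∈ S, ∀ b ∈ S, ∀ d ∈ S, g (f a) = g (s a) → g (f b) = g (s b) → g (f d) = g (s d) → s a < f b → s b < f d →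
      g (s d) ≠ G → False)
    (H5 : ∀ u ∈ S, ∀ v ∈ S, s u < s v → g (s u) = g (s v) → g (f u) < g (s u) → g (f v) < g (s v) → ¬ (g (f u) = g (f v) ∧ f v < f u) → False)
    (H6 : ∀ u ∈ S, ∀ v ∈ S, ∀ w ∈ S, f u < f v → f v < f w → s w < s v → s v < s u → g (f u) = g (f w) → g (s w) = g (s u) →
      g (f w) < g (s w) → False)
    (H7 : ∀ u ∈ S, ∀ v ∈ S, f u < f v → g (f u) = g (f v) → g (f u) < g (s u) → g (f v) < g (s v) → g (s v) ≠ G →
      ¬ (g (s u) = g (s v) ∧ s v < s u) → False) :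
    ∃ T ⊆ S, 24 ≤ T.card ∧ (∀ u ∈ T, g (f u) ≠ g (s u) ∧ g (f u) ≠ 0 ∧ g (s u) ≠ G) ∧
      ∀ u ∈ T, ∀ v ∈ T, u ≠ v → g (f u) ≠ g (f v) ∧ g (f u) ≠ g (s v) ∧ g (s u) ≠ g (f v) ∧ g (s u) ≠ g (s v) := by
  classical
  -- own letters
  obtain ⟨O, hO⟩ : ∃ O, O = S.filter (fun u => g (f u) = g (s u)) := ⟨_, rfl⟩
  have hOS : ∀ u ∈ O, u ∈ S ∧ g (f u) = g (s u) := by
    intro u hu
    rw [hO, Finset.mem_filter] at hu
    exact hu
  have own3 : ∀ γ, (O.filter (fun u => g (f u) = γ)).card ≤ 3 := by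
    intro γ
    by_contra hc
    have hmem : ∀ u ∈ O.filter (fun u => g (f u) = γ), u ∈ S ∧ g (f u) = γ ∧ g (s u) = γ := by
      intro u hu
      rw [Finset.mem_filter] at hu
      obtain ⟨h1, h2⟩ := hOS u hu.1
      exact ⟨h1, hu.2, by omega⟩
    obtain ⟨a, ha, hs⟩ := srt_card (O.filter (fun u => g (f u) = γ)) f (fun u hu v hv => hff u (hmem u hu).1 v (hmem v hv).1) 4 (by omega)
    have hγ : γ ≠ G := by
      obtain ⟨a1, a2, a3⟩ := hmem _ (ha 0)
      have := H0 _ a1
      rwa [a2] at this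
    have nest : ∀ i j : Fin 4, i < j → s (a j) < s (a i) := by
      intro i j hij
      obtain ⟨i1, i2, i3⟩ := hmem _ (ha i)
      obtain ⟨j1, j2, j3⟩ := hmem _ (ha j)
      have h1 := hs i j hij
      by_contra h2
      have h3 : s (a i) ≠ s (a j) := fun h => by
        have := hss _ i1 _ j1 h
        rw [this] at h1
        omega
      rcases lt_or_ge (s (a i)) (f (a j)) with h4 | h4
      · exact H1 _ i1 _ j1 h4 (by rw [i2, j3]) (by rw [j3]; exact hγ)
      · have h5 := hfs' _ j1 _ i1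
        exact H2 _ i1 _ j1 h1 (by omega) (by omega) (by rw [i2, j3]) (by rw [j3]; exact hγ)
    obtain ⟨a1, a2, a3⟩ := hmem _ (ha 0)
    obtain ⟨b1, b2, b3⟩ := hmem _ (ha 1)
    obtain ⟨c1, c2, c3⟩ := hmem _ (ha 2)
    obtain ⟨d1, d2, d3⟩ := hmem _ (ha 3)
    exact H3 _ a1 _ b1 _ c1 _ d1 (hs 0 1 (by decide)) (hs 1 2 (by decide)) (hs 2 3 (by decide)) (nest 2 3 (by decide))
      (nest 1 2 (by decide)) (nest 0 1 (by decide)) (by rw [a2, a3]) (by rw [a3]; exact hγ)
  have hO6 : O.card ≤ 6 := by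
    by_contra hc
    have h1 := Finset.card_le_mul_card_image (f := fun u => g (f u)) O 3 (fun γ _ => own3 γ)
    obtain ⟨c, hc1, hc2⟩ := srt_card (O.image (fun u => g (f u))) (fun x => x) (fun u _ v _ h => h) 3 (by omega)
    have hex : ∀ i : Fin 3, ∃ u ∈ O, g (f u) = c i := by
      intro i
      have := hc1 i
      rw [Finset.mem_image] at this
      exact this
    choose a ha hga using hex
    have key : ∀ i j : Fin 3, i < j → s (a i) < f (a j) := by
      intro i j hij
      have h3 := hc2 i j hij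
      by_contra h4
      have h5 := hg (f (a j)) (s (a i)) (by omega)
      rw [← (hOS _ (ha i)).2, hga, hga] at h5
      omega
    exact H4 _ (hOS _ (ha 0)).1 _ (hOS _ (ha 1)).1 _ (hOS _ (ha 2)).1 (hOS _ (ha 0)).2 (hOS _ (ha 1)).2 (hOS _ (ha 2)).2
      (key 0 1 (by decide)) (key 1 2 (by decide)) (by rw [← (hOS _ (ha 2)).2]; exact H0 _ (hOS _ (ha 2)).1)
  -- the other letters
  obtain ⟨N, hN⟩ : ∃ N, N = S.filter (fun u => ¬ g (f u) = g (s u)) := ⟨_, rfl⟩
  have hNS : ∀ u ∈ N, u ∈ S ∧ g (f u) ≠ g (s u) := by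
    intro u hu
    rw [hN, Finset.mem_filter] at hu
    exact hu
  have hNc : 294 ≤ N.card := by
    have := Finset.card_filter_add_card_filter_not (s := S) (fun u => g (f u) = g (s u))
    rw [← hO, ← hN] at this
    omega
  have hlt : ∀ u ∈ N, g (f u) < g (s u) := by
    intro u hu
    have h1 := hg (f u) (s u) (hfs u (hNS u hu).1).le
    have h2 := (hNS u hu).2
    omega
  have sec2 : ∀ γ, (N.filter (fun u => g (s u) = γ)).card ≤ 2 := by
    intro γ
    by_contra hc
    have hmem : ∀ u ∈ N.filter (fun u => g (s u) = γ), u ∈ N ∧ u ∈ S ∧ g (s u) = γ := by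
      intro u hu
      rw [Finset.mem_filter] at hu
      exact ⟨hu.1, (hNS u hu.1).1, hu.2⟩
    obtain ⟨a, ha, hs⟩ := srt_card (N.filter (fun u => g (s u) = γ)) s
      (fun u hu v hv => hss u (hmem u hu).2.1 v (hmem v hv).2.1) 3 (by omega)
    have nest : ∀ i j : Fin 3, i < j → g (f (a i)) = g (f (a j)) ∧ f (a j) < f (a i) := by
      intro i j hij
      obtain ⟨i0, i1, i2⟩ := hmem _ (ha i)
      obtain ⟨j0, j1, j2⟩ := hmem _ (ha j)
      have h1 := hs i j hij
      by_contra h2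
      exact H5 _ i1 _ j1 h1 (by rw [i2, j2]) (hlt _ i0) (hlt _ j0) h2
    obtain ⟨a0, a1, a2⟩ := hmem _ (ha 0)
    obtain ⟨-, b1, b2⟩ := hmem _ (ha 1)
    obtain ⟨c0, c1, c2⟩ := hmem _ (ha 2)
    exact H6 _ c1 _ b1 _ a1 (nest 1 2 (by decide)).2 (nest 0 1 (by decide)).2 (hs 0 1 (by decide)) (hs 1 2 (by decide))
      (nest 0 2 (by decide)).1.symm (by rw [a2, c2]) (hlt _ a0)
  have fst4 : ∀ γ, (N.filter (fun u => g (f u) = γ)).card ≤ 4 := by
    intro γ
    by_contra hc
    have hmem : ∀ u ∈ N.filter (fun u => g (f u) = γ), u ∈ N ∧ u ∈ S ∧ g (f u) = γ := by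
      intro u hu
      rw [Finset.mem_filter] at hu
      exact ⟨hu.1, (hNS u hu.1).1, hu.2⟩
    obtain ⟨a, ha, hs⟩ := srt_card (N.filter (fun u => g (f u) = γ)) f
      (fun u hu v hv => hff u (hmem u hu).2.1 v (hmem v hv).2.1) 5 (by omega)
    have hne : ∀ i j : Fin 5, i ≠ j → a i ≠ a j := by
      intro i j hij h
      rcases lt_or_gt_of_ne hij with h2 | h2
      · have := hs _ _ h2
        rw [h] at this
        omega
      · have := hs _ _ h2
        rw [h] at this
        omega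
    have three : ∀ i j k : Fin 5, i ≠ j → i ≠ k → j ≠ k → ∀ γ', g (s (a i)) = γ' → g (s (a j)) = γ' → g (s (a k)) = γ' → False := by
      intro i j k hij hik hjk γ' h1 h2 h3
      have h4 := sec2 γ'
      have h5 : ({a i, a j, a k} : Finset ι) ⊆ N.filter (fun u => g (s u) = γ') := by
        intro u hu
        simp only [Finset.mem_insert, Finset.mem_singleton] at hu
        rw [Finset.mem_filter]
        rcases hu with rfl | rfl | rfl
        · exact ⟨(hmem _ (ha i)).1, h1⟩
        · exact ⟨(hmem _ (ha j)).1, h2⟩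
        · exact ⟨(hmem _ (ha k)).1, h3⟩
      have h6 := Finset.card_le_card h5
      rw [Finset.card_eq_three.2 ⟨a i, a j, a k, hne i j hij, hne i k hik, hne j k hjk, rfl⟩] at h6
      omega
    have key : ∀ j : Fin 5, 1 < j → g (s (a j)) = G := by
      intro j hj
      by_contra hG
      have h0 : ∀ i : Fin 5, i < j → g (s (a i)) = g (s (a j)) := by
        intro i hij
        obtain ⟨i0, i1, i2⟩ := hmem _ (ha i)
        obtain ⟨j0, j1, j2⟩ := hmem _ (ha j)
        by_contra h2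
        exact H7 _ i1 _ j1 (hs i j hij) (by rw [i2, j2]) (hlt _ i0) (hlt _ j0) hG (fun h => h2 h.1)
      have hj0 : (0 : Fin 5) < j := lt_trans (by decide) hj
      exact three 0 1 j (by decide) (ne_of_lt hj0) (ne_of_lt hj) _ (h0 0 hj0) (h0 1 hj) rfl
    exact three 2 3 4 (by decide) (by decide) (by decide) G (key 2 (by decide)) (key 3 (by decide)) (key 4 (by decide))
  -- the relation
  obtain ⟨T, hT, hTc, hTr⟩ := greedy (fun u v => g (f u) = g (f v) ∨ g (f u) = g (s v) ∨ g (s u) = g (f v) ∨ g (s u) = g (s v))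
    (by
      intro u v h
      rcases h with h | h | h | h
      · exact Or.inl h.symm
      · exact Or.inr (Or.inr (Or.inl h.symm))
      · exact Or.inr (Or.inl h.symm)
      · exact Or.inr (Or.inr (Or.inr h.symm))) 10 N.card N le_rfl (by
    intro u hu W hW hr
    have hsub : W ⊆ ((N.filter (fun v => g (f v) = g (f u))).erase u ∪ N.filter (fun v => g (s v) = g (f u))) ∪
        (N.filter (fun v => g (f v) = g (s u)) ∪ (N.filter (fun v => g (s v) = g (s u))).erase u) := by
      intro v hv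
      obtain ⟨h1, h2⟩ := hr v hv
      have h3 := hW hv
      simp only [Finset.mem_union, Finset.mem_erase, Finset.mem_filter]
      rcases h2 with h2 | h2 | h2 | h2
      · exact Or.inl (Or.inl ⟨h1, h3, h2.symm⟩)
      · exact Or.inl (Or.inr ⟨h3, h2.symm⟩)
      · exact Or.inr (Or.inl ⟨h3, h2.symm⟩)
      · exact Or.inr (Or.inr ⟨h1, h3, h2.symm⟩)
    have e1 : ((N.filter (fun v => g (f v) = g (f u))).erase u).card ≤ 3 := by
      have h0 := Finset.card_erase_of_mem (s := N.filter (fun v => g (f v) = g (f u))) (a := u) (Finset.mem_filter.2 ⟨hu, rfl⟩)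
      have := fst4 (g (f u))
      omega
    have e2 := sec2 (g (f u))
    have e3 := fst4 (g (s u))
    have e4 : ((N.filter (fun v => g (s v) = g (s u))).erase u).card ≤ 1 := by
      have h0 := Finset.card_erase_of_mem (s := N.filter (fun v => g (s v) = g (s u))) (a := u) (Finset.mem_filter.2 ⟨hu, rfl⟩)
      have := sec2 (g (s u))
      omega
    have f1 := Finset.card_le_card hsub
    have f2 := Finset.card_union_le ((N.filter (fun v => g (f v) = g (f u))).erase u ∪ N.filter (fun v => g (s v) = g (f u)))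
      (N.filter (fun v => g (f v) = g (s u)) ∪ (N.filter (fun v => g (s v) = g (s u))).erase u)
    have f3 := Finset.card_union_le ((N.filter (fun v => g (f v) = g (f u))).erase u) (N.filter (fun v => g (s v) = g (f u)))
    have f4 := Finset.card_union_le (N.filter (fun v => g (f v) = g (s u))) ((N.filter (fun v => g (s v) = g (s u))).erase u)
    omega)
  -- drop the start gap and the end gap
  have t0 : (T.filter (fun u => g (f u) = 0)).card ≤ 1 := by
    rw [Finset.card_le_one]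
    intro u hu v hv
    rw [Finset.mem_filter] at hu hv
    by_contra h
    have := hTr u hu.1 v hv.1 h
    simp only [not_or] at this
    exact this.1 (by rw [hu.2, hv.2])
  have t1 : (T.filter (fun u => g (s u) = G)).card ≤ 1 := by
    rw [Finset.card_le_one]
    intro u hu v hv
    rw [Finset.mem_filter] at hu hv
    by_contra h
    have := hTr u hu.1 v hv.1 h
    simp only [not_or] at this
    exact this.2.2.2 (by rw [hu.2, hv.2])
  have t2 : T ⊆ T.filter (fun u => g (f u) ≠ 0 ∧ g (s u) ≠ G) ∪ (T.filter (fun u => g (f u) = 0) ∪ T.filter (fun u => g (s u) = G)) := by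
    intro u hu
    simp only [Finset.mem_union, Finset.mem_filter]
    tauto
  have t3 := Finset.card_le_card t2
  have t4 := Finset.card_union_le (T.filter (fun u => g (f u) ≠ 0 ∧ g (s u) ≠ G)) (T.filter (fun u => g (f u) = 0) ∪ T.filter (fun u => g (s u) = G))
  have t5 := Finset.card_union_le (T.filter (fun u => g (f u) = 0)) (T.filter (fun u => g (s u) = G))
  refine ⟨T.filter (fun u => g (f u) ≠ 0 ∧ g (s u) ≠ G), fun u hu => (hNS u (hT (Finset.mem_filter.1 hu).1)).1, by omega,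
    fun u hu => ⟨(hNS u (hT (Finset.mem_filter.1 hu).1)).2, (Finset.mem_filter.1 hu).2⟩, ?_⟩
  intro u hu v hv huv
  have := hTr u (Finset.mem_filter.1 hu).1 v (Finset.mem_filter.1 hv).1 huv
  simp only [not_or] at this
  exact this

end NTC
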