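import Pool.Agent.helper65.NTC.ISOR
import Pool.Agent.helper65.NTC.CombB

/-!
# MP_c8d30a (A), section 3: 24 isolated blue letters
-/

set_option autoImplicit false

namespace NTC

open NTH

universe u
variable {Ω : Type u} {p : Ω → Ω}

theorem gp_le_of {M : Finset ℕ} {n n' : ℕ} (h : ∀ m ∈ M, m < n' → m < n) : gp M n' ≤ gp M n := by
  unfold gp
  apply Finset.sup_mono
  intro m hm
  rw [Finset.mem_filter] at hm ⊢
  exact ⟨hm.1, h m hm.1 hm.2⟩

theorem gp_ne_top {M : Finset ℕ} {n : ℕ} (h : gp M n ≠ M.sup id) : ∃ m ∈ M, n ≤ m := by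
  by_contra hn
  push Not at hn
  apply h
  unfold gp
  rw [Finset.filter_true_of_mem hn]

theorem nxt {M : Finset ℕ} {n : ℕ} (h : ∃ m ∈ M, n < m) : ∃ c ∈ M, n < c ∧ ∀ m ∈ M, n < m → c ≤ m := by
  obtain ⟨m0, h0, h1⟩ := h
  obtain ⟨c, hc, hmin⟩ := Finset.exists_min_image (M.filter (fun m => n < m)) id ⟨m0, Finset.mem_filter.2 ⟨h0, h1⟩⟩
  rw [Finset.mem_filter] at hc
  exact ⟨c, hc.1, hc.2, fun m hm h2 => hmin m (Finset.mem_filter.2 ⟨hm, h2⟩)⟩

theorem blueA (hinv : ∀ t, p (p t) = t) {Dr : St Ω → Prop} (hD : DrC p Dr) {A B : List Ω} (hG : Gd p (A, B)) {c x : Ω}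
    (hc : c ∈ A) (hx : x ∈ A) (hx' : p x ∈ A) (hcx : c ≠ x) (hcx' : c ≠ p x) (hne : p x ≠ x)
    (H : ∀ (x' : Ω) (P Q R : List Ω), Gd p (c :: P ++ x' :: Q ++ p x' :: R, B) → Dr (c :: P ++ x' :: Q ++ p x' :: R, B)) : Dr (A, B) := by
  obtain ⟨X, Y, rfl⟩ := List.append_of_mem hc
  have hG' := hG.rot
  apply hD.rot _ _ _ hG'
  have hxW : x ∈ Y ++ X := by
    simp only [List.mem_append, List.mem_cons] at hx ⊢
    rcases hx with h | h | h
    · exact Or.inr h
    · exact absurd h.symm hcx
    · exact Or.inl h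
  have hxW' : p x ∈ Y ++ X := by
    simp only [List.mem_append, List.mem_cons] at hx' ⊢
    rcases hx' with h | h | h
    · exact Or.inr h
    · exact absurd h.symm hcx'
    · exact Or.inl h
  rw [List.cons_append] at hG' ⊢
  generalize Y ++ X = W at hG' hxW hxW' ⊢
  obtain ⟨W1, W2, rfl⟩ := List.append_of_mem hxW
  rcases List.mem_append.1 hxW' with h | h
  · obtain ⟨W3, W4, rfl⟩ := List.append_of_mem h
    have := H (p x) W3 W4 W2 (by rw [hinv]; simpa using hG')
    rw [hinv] at this
    simpa using this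
  · rcases List.mem_cons.1 h with h | h
    · exact absurd h hne
    · obtain ⟨W3, W4, rfl⟩ := List.append_of_mem h
      have := H x W1 W3 W4 (by simpa using hG')
      simpa using this

theorem KK (hinv : ∀ t, p (p t) = t) (hne : ∀ t, p t ≠ t) {Dr : St Ω → Prop} (hD : DrC p Dr) (hC : BlueC p Dr) {A B : List Ω} (hG : Gd p (A, B))
    {x : Ω} (hx : x ∈ A) (hx' : p x ∈ A) {pos : Ω → ℕ} (hs : Srt pos B) (hpos : ∀ t ∈ B, 1 ≤ pos t ∧ pos t ≤ B.length) {u v c : Ω}
    (hu : u ∈ B) (hpu : p u ∈ B) (hv : v ∈ B) (hpv : p v ∈ B) (hcA : c ∈ A) (hcB : p c ∈ B) (huv : v ≠ p u) (h1 : pos u < pos v)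
    (h2 : ∀ m ∈ B, pos u < pos m → pos m < pos v → p m ∈ B ∧ m ≠ p u ∧ m ≠ p v) (h3 : pos (p v) < pos (p c))
    (h4 : ¬ (pos (p v) < pos u ∧ pos u < pos (p c))) (h5 : ¬ (pos (p v) < pos (p u) ∧ pos (p u) < pos (p c))) : Dr (A, B) := by
  have hdis := List.disjoint_of_nodup_append hG.nd
  have hxB : x ∉ B := fun h => hdis hx h
  have hpxB : p x ∉ B := fun h => hdis hx' h
  have hne2 : v ≠ u := fun h => by rw [h] at h1; omega
  -- positions are different
  have inj : ∀ {s t : Ω}, s ∈ B → t ∈ B → s ≠ t → pos s ≠ pos t := fun a b c h => c (hs.inj a b h)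
  have npu : p u ≠ u := hne u
  have npv : p v ≠ v := hne v
  have d1 : pos (p u) ≠ pos u := inj hpu hu npu
  have d2 : pos (p v) ≠ pos v := inj hpv hv npv
  have d3 : pos (p u) ≠ pos v := inj hpu hv (Ne.symm huv)
  have d4 : pos (p v) ≠ pos u := inj hpv hu (fun h => huv (by rw [← h, hinv]))
  have d5 : pos (p u) ≠ pos (p v) := inj hpu hpv (fun h => hne2 (by rw [← hinv v, ← h, hinv]))
  have ncB : ∀ t ∈ B, p t ∈ B → p c ≠ t := by
    rintro t ht ht' rfl
    rw [hinv] at ht'
    exact hdis hcA ht'
  have d6 : pos (p c) ≠ pos u := inj hcB hu (ncB u hu hpu)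
  have d7 : pos (p c) ≠ pos v := inj hcB hv (ncB v hv hpv)
  have d8 : pos (p c) ≠ pos (p u) := inj hcB hpu (ncB _ hpu (by rw [hinv]; exact hu))
  have d9 : pos (p c) ≠ pos (p v) := inj hcB hpv (ncB _ hpv (by rw [hinv]; exact hv))
  have e1 : ¬ (pos u < pos (p u) ∧ pos (p u) < pos v) := fun h => (h2 _ hpu h.1 h.2).2.1 rfl
  have e2 : ¬ (pos u < pos (p v) ∧ pos (p v) < pos v) := fun h => (h2 _ hpv h.1 h.2).2.2 rfl
  have e3 : ¬ (pos u < pos (p c) ∧ pos (p c) < pos v) := fun h => by
    have := (h2 _ hcB h.1 h.2).1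
    rw [hinv] at this
    exact hdis hcA this
  -- the sub-state
  apply hD.lift (zz p A B [u, v, x]) _ _ hG (fun t => zz_p hinv t) (fun t h1 h2 => zz_mix hG h1 h2)
  have hGf := hG.filter (zz p A B [u, v, x]) (fun t => zz_p hinv t)
  have hL := hs.filter (zz p A B [u, v, x])
  have zx : zz p A B [u, v, x] x = true := by rw [zz_iff]; simp
  have zc : zz p A B [u, v, x] c = true := zz_mix hG hcA hcB
  have mu : u ∈ B.filter (zz p A B [u, v, x]) := List.mem_filter.2 ⟨hu, by rw [zz_iff]; simp⟩
  have mv : v ∈ B.filter (zz p A B [u, v, x]) := List.mem_filter.2 ⟨hv, by rw [zz_iff]; simp⟩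
  have mu' : p u ∈ B.filter (zz p A B [u, v, x]) := List.mem_filter.2 ⟨hpu, by rw [zz_iff, hinv]; simp⟩
  have mv' : p v ∈ B.filter (zz p A B [u, v, x]) := List.mem_filter.2 ⟨hpv, by rw [zz_iff, hinv]; simp⟩
  have mc' : p c ∈ B.filter (zz p A B [u, v, x]) := List.mem_filter.2 ⟨hcB, by rw [zz_p hinv]; exact zc⟩
  have hall : sg pos (B.filter (zz p A B [u, v, x])) 0 (B.length + 1) = B.filter (zz p A B [u, v, x]) := by
    apply sg_all
    intro m hm
    have := hpos m (List.mem_filter.1 hm).1
    omega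
  have n1 : sg pos (B.filter (zz p A B [u, v, x])) (pos u) (pos v) = [] := by
    apply sg_nil
    intro m hm h6 h7
    rw [List.mem_filter] at hm
    obtain ⟨h8, h9, h10⟩ := h2 m hm.1 h6 h7
    have h11 : m ≠ u := fun h => by rw [h] at h6; omega
    have h12 : m ≠ v := fun h => by rw [h] at h7; omega
    rcases zz_memB hG hm.1 hm.2 with h | h | h
    · simp only [List.mem_cons, List.not_mem_nil, or_false] at h
      rcases h with h | h | h
      · exact h11 h
      · exact h12 h
      · rw [h] at hm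
        exact hxB hm.1
    · simp only [List.mem_cons, List.not_mem_nil, or_false] at h
      rcases h with h | h | h
      · exact h9 (by rw [← h, hinv])
      · exact h10 (by rw [← h, hinv])
      · rw [← h, hinv] at hpxB
        exact hpxB hm.1
    · exact hdis h h8
  have pu := hpos u hu
  have pv := hpos v hv
  have ppu := hpos _ hpu
  have ppv := hpos _ hpv
  have pc := hpos _ hcB
  refine blueA hinv hD hGf (c := c) (x := x) (List.mem_filter.2 ⟨hcA, zc⟩) (List.mem_filter.2 ⟨hx, zx⟩)
    (List.mem_filter.2 ⟨hx', by rw [zz_p hinv]; exact zx⟩) ?_ ?_ (hne x) ?_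
  · rintro rfl
    exact hpxB hcB
  · rintro rfl
    rw [hinv] at hcB
    exact hxB hcB
  · intro x' P Q R hG2
    apply hC.K' c x' u v P Q R _ hG2
    have W : ∀ ts : List Ω, (∀ t ∈ ts, t ∈ B.filter (zz p A B [u, v, x])) → okc pos (B.length + 1) 0 ts →
        sg pos (B.filter (zz p A B [u, v, x])) 0 (B.length + 1) = wv pos (B.filter (zz p A B [u, v, x])) (B.length + 1) 0 ts :=
      fun ts h h' => wv_eq hL ts 0 h h'
    rcases lt_or_gt_of_ne d4 with h6 | h6
    · -- p v before u
      have h7 : pos (p c) < pos u := by omega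
      rcases lt_or_gt_of_ne d5 with h8 | h8
      · have e := W [p u, p v, p c, u, v] (by
          intro t ht
          simp only [List.mem_cons, List.not_mem_nil, or_false] at ht
          rcases ht with rfl | rfl | rfl | rfl | rfl <;> assumption)
          ⟨by omega, by omega, by omega, by omega, by omega, by omega, by omega, by omega, by omega, by omega, trivial⟩
        rw [hall] at e
        simp only [wv, n1, List.nil_append] at e
        rw [e]
        have := BK.f (p := p) (c := c) (u := u) (v := v) (sg pos (B.filter (zz p A B [u, v, x])) 0 (pos (p u)))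
          (sg pos (B.filter (zz p A B [u, v, x])) (pos (p u)) (pos (p v)))
          (sg pos (B.filter (zz p A B [u, v, x])) (pos (p c)) (pos u))
          (sg pos (B.filter (zz p A B [u, v, x])) (pos v) (B.length + 1))
          (sg pos (B.filter (zz p A B [u, v, x])) (pos (p v)) (pos (p c)))
        simpa using this
      · have h9 : pos (p c) < pos (p u) := by omega
        rcases lt_or_gt_of_ne d1 with h10 | h10
        · have e := W [p v, p c, p u, u, v] (by
            intro t ht
            simp only [List.mem_cons, List.not_mem_nil, or_false] at ht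
            rcases ht with rfl | rfl | rfl | rfl | rfl <;> assumption)
            ⟨by omega, by omega, by omega, by omega, by omega, by omega, by omega, by omega, by omega, by omega, trivial⟩
          rw [hall] at e
          simp only [wv, n1, List.nil_append] at e
          rw [e]
          have := BK.d (p := p) (c := c) (u := u) (v := v) (sg pos (B.filter (zz p A B [u, v, x])) 0 (pos (p v)))
            (sg pos (B.filter (zz p A B [u, v, x])) (pos (p c)) (pos (p u)))
            (sg pos (B.filter (zz p A B [u, v, x])) (pos (p u)) (pos u))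
            (sg pos (B.filter (zz p A B [u, v, x])) (pos v) (B.length + 1))
            (sg pos (B.filter (zz p A B [u, v, x])) (pos (p v)) (pos (p c)))
          simpa using this
        · have e := W [p v, p c, u, v, p u] (by
            intro t ht
            simp only [List.mem_cons, List.not_mem_nil, or_false] at ht
            rcases ht with rfl | rfl | rfl | rfl | rfl <;> assumption)
            ⟨by omega, by omega, by omega, by omega, by omega, by omega, by omega, by omega, by omega, by omega, trivial⟩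
          rw [hall] at e
          simp only [wv, n1, List.nil_append] at e
          rw [e]
          have := BK.c (p := p) (c := c) (u := u) (v := v) (sg pos (B.filter (zz p A B [u, v, x])) 0 (pos (p v)))
            (sg pos (B.filter (zz p A B [u, v, x])) (pos (p c)) (pos u))
            (sg pos (B.filter (zz p A B [u, v, x])) (pos v) (pos (p u)))
            (sg pos (B.filter (zz p A B [u, v, x])) (pos (p u)) (B.length + 1))
            (sg pos (B.filter (zz p A B [u, v, x])) (pos (p v)) (pos (p c)))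
          simpa using this
    · -- u before p v
      have h7 : pos v < pos (p v) := by omega
      rcases lt_or_gt_of_ne d1 with h8 | h8
      · have e := W [p u, u, v, p v, p c] (by
          intro t ht
          simp only [List.mem_cons, List.not_mem_nil, or_false] at ht
          rcases ht with rfl | rfl | rfl | rfl | rfl <;> assumption)
          ⟨by omega, by omega, by omega, by omega, by omega, by omega, by omega, by omega, by omega, by omega, trivial⟩
        rw [hall] at e
        simp only [wv, n1, List.nil_append] at e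
        rw [e]
        have := BK.e (p := p) (c := c) (u := u) (v := v) (sg pos (B.filter (zz p A B [u, v, x])) 0 (pos (p u)))
          (sg pos (B.filter (zz p A B [u, v, x])) (pos (p u)) (pos u))
          (sg pos (B.filter (zz p A B [u, v, x])) (pos v) (pos (p v)))
          (sg pos (B.filter (zz p A B [u, v, x])) (pos (p c)) (B.length + 1))
          (sg pos (B.filter (zz p A B [u, v, x])) (pos (p v)) (pos (p c)))
        simpa using this
      · rcases lt_or_gt_of_ne d5 with h9 | h9
        · have e := W [u, v, p u, p v, p c] (by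
            intro t ht
            simp only [List.mem_cons, List.not_mem_nil, or_false] at ht
            rcases ht with rfl | rfl | rfl | rfl | rfl <;> assumption)
            ⟨by omega, by omega, by omega, by omega, by omega, by omega, by omega, by omega, by omega, by omega, trivial⟩
          rw [hall] at e
          simp only [wv, n1, List.nil_append] at e
          rw [e]
          have := BK.b (p := p) (c := c) (u := u) (v := v) (sg pos (B.filter (zz p A B [u, v, x])) 0 (pos u))
            (sg pos (B.filter (zz p A B [u, v, x])) (pos v) (pos (p u)))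
            (sg pos (B.filter (zz p A B [u, v, x])) (pos (p u)) (pos (p v)))
            (sg pos (B.filter (zz p A B [u, v, x])) (pos (p c)) (B.length + 1))
            (sg pos (B.filter (zz p A B [u, v, x])) (pos (p v)) (pos (p c)))
          simpa using this
        · have e := W [u, v, p v, p c, p u] (by
            intro t ht
            simp only [List.mem_cons, List.not_mem_nil, or_false] at ht
            rcases ht with rfl | rfl | rfl | rfl | rfl <;> assumption)
            ⟨by omega, by omega, by omega, by omega, by omega, by omega, by omega, by omega, by omega, by omega, trivial⟩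
          rw [hall] at e
          simp only [wv, n1, List.nil_append] at e
          rw [e]
          have := BK.a (p := p) (c := c) (u := u) (v := v) (sg pos (B.filter (zz p A B [u, v, x])) 0 (pos u))
            (sg pos (B.filter (zz p A B [u, v, x])) (pos v) (pos (p v)))
            (sg pos (B.filter (zz p A B [u, v, x])) (pos (p c)) (pos (p u)))
            (sg pos (B.filter (zz p A B [u, v, x])) (pos (p u)) (B.length + 1))
            (sg pos (B.filter (zz p A B [u, v, x])) (pos (p v)) (pos (p c)))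
          simpa using this


theorem ISOB (hNEST : NEST_stmt.{u}) : ISOB_stmt.{u} := by
  classical
  intro Ω p Dr hinv hne hD hC x A B hG hx hx' hcl hF hRr
  by_contra hDr
  have hBnd : B.Nodup := (List.nodup_append.1 hG.nd).2.1
  obtain ⟨pos, hs, hpos⟩ := exists_pos B hBnd
  obtain ⟨NN, hNN⟩ : ∃ NN, NN = B.length + 1 := ⟨_, rfl⟩
  have hposN : ∀ t ∈ B, pos t < NN := fun t ht => by
    have := hpos t ht
    omega
  have hpos1 : ∀ t ∈ B, 0 < pos t := fun t ht => by
    have := hpos t ht
    omega
  obtain ⟨M, hM⟩ : ∃ M : Finset ℕ, M = ((B.filter (fun t => decide (p t ∈ A))).map pos).toFinset := ⟨_, rfl⟩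
  have hMmem : ∀ n, n ∈ M ↔ ∃ t ∈ B, p t ∈ A ∧ pos t = n := by
    intro n
    rw [hM, List.mem_toFinset, List.mem_map]
    constructor
    · rintro ⟨t, ht, rfl⟩
      rw [List.mem_filter] at ht
      exact ⟨t, ht.1, by simpa using ht.2, rfl⟩
    · rintro ⟨t, h1, h2, rfl⟩
      exact ⟨t, List.mem_filter.2 ⟨h1, by simpa using h2⟩, rfl⟩
  have hdis := List.disjoint_of_nodup_append hG.nd
  have hside : ∀ t ∈ B, p t ∈ A ∨ p t ∈ B := fun t ht => List.mem_append.1 (hG.cl t (List.mem_append_right _ ht))
  -- a blue token is not at a mixed position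
  have hMb : ∀ t ∈ B, p t ∈ B → pos t ∉ M := by
    intro t ht ht' h
    obtain ⟨t', h1, h2, h3⟩ := (hMmem _).1 h
    have := hs.inj h1 ht h3
    rw [this] at h2
    exact hdis h2 ht'
  have hMb' : ∀ t ∈ B, pos t ∉ M → p t ∈ B := by
    intro t ht h
    rcases hside t ht with h1 | h1
    · exact absurd ((hMmem _).2 ⟨t, ht, h1, rfl⟩) h
    · exact h1
  have hxB : x ∉ B := fun h => hdis hx h
  have hpxB : p x ∉ B := fun h => hdis hx' h
  -- the certificate K'
  have kk : ∀ u v : Ω, u ∈ B → p u ∈ B → v ∈ B → p v ∈ B → v ≠ p u → pos u < pos v →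
      (∀ m ∈ M, pos u < m → m < pos v → False) → ¬ (pos u < pos (p u) ∧ pos (p u) < pos v) → ¬ (pos u < pos (p v) ∧ pos (p v) < pos v) →
      ∀ c ∈ M, pos (p v) < c → ¬ (pos (p v) < pos u ∧ pos u < c) → ¬ (pos (p v) < pos (p u) ∧ pos (p u) < c) → False := by
    intro u v hu hpu hv hpv huv h1 h2 h3 h4 c hc h5 h6 h7
    obtain ⟨t, t1, t2, t3⟩ := (hMmem c).1 hc
    apply hDr
    refine KK hinv hne hD hC hG hx hx' hs hpos (u := u) (v := v) (c := p t) hu hpu hv hpv t2 (by rw [hinv]; exact t1) huv h1 ?_
      (by rw [hinv, t3]; exact h5) (by rw [hinv, t3]; exact h6) (by rw [hinv, t3]; exact h7)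
    intro m hm h8 h9
    refine ⟨hMb' m hm (fun h => h2 _ h h8 h9), ?_, ?_⟩
    · rintro rfl
      exact h3 ⟨h8, h9⟩
    · rintro rfl
      exact h4 ⟨h8, h9⟩
  obtain ⟨S, hS⟩ : ∃ S : Finset Ω, S = (B.filter (fun t => decide (p t ∈ B ∧ pos t < pos (p t)))).toFinset := ⟨_, rfl⟩
  have hSmem : ∀ t, t ∈ S ↔ t ∈ B ∧ p t ∈ B ∧ pos t < pos (p t) := by
    intro t
    rw [hS, List.mem_toFinset, List.mem_filter]
    simp
  -- the number of blue letters
  have hScard : 300 ≤ S.card := by
    obtain ⟨R, hRn, hRc, hRm⟩ := hRr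
    have h1 : R.toFinset ⊆ S ∪ S.image p := by
      intro t ht
      rw [List.mem_toFinset] at ht
      obtain ⟨h2, h3⟩ := hRm t ht
      have h4 : pos t ≠ pos (p t) := fun h => hne t (hs.inj h3 h2 h.symm)
      rw [Finset.mem_union, Finset.mem_image]
      rcases lt_or_gt_of_ne h4 with h5 | h5
      · exact Or.inl ((hSmem t).2 ⟨h2, h3, h5⟩)
      · exact Or.inr ⟨p t, (hSmem _).2 ⟨h3, by rw [hinv]; exact h2, by rw [hinv]; exact h5⟩, hinv t⟩
    have h2 := Finset.card_le_card h1
    have h3 := Finset.card_union_le S (S.image p)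
    have h4 := Finset.card_image_le (s := S) (f := p)
    rw [List.toFinset_card_of_nodup hRn] at h2
    omega
  have hSne : ∀ u ∈ S, ∀ v ∈ S, v ≠ p u := by
    rintro u hu v hv rfl
    have h1 := ((hSmem u).1 hu).2.2
    have h2 := ((hSmem _).1 hv).2.2
    rw [hinv] at h2
    omega
  -- the mixed tokens
  have hMne : M.Nonempty := by
    obtain ⟨t, h1, h2⟩ := hcl [] B rfl (by
      rintro rfl
      have : S = ∅ := by rw [hS]; rfl
      rw [this] at hScard
      simp at hScard)
    rcases hside t h1 with h3 | h3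
    · exact ⟨pos t, (hMmem _).2 ⟨t, h1, h3, rfl⟩⟩
    · exact absurd h3 h2
  obtain ⟨G, hGd⟩ : ∃ G, G = M.sup id := ⟨_, rfl⟩
  have hGM : G ∈ M := by
    obtain ⟨m, hm, he⟩ := Finset.exists_mem_eq_sup _ hMne id
    rw [hGd, he]
    exact hm
  have hGle : ∀ m ∈ M, m ≤ G := fun m hm => by
    rw [hGd]
    exact Finset.le_sup (f := id) hm
  have htop : ∀ n, 0 < n → gp M n = G → G < n := by
    intro n hn h
    rw [← h]
    exact gp_lt hn
  have hntop : ∀ t ∈ B, p t ∈ B → gp M (pos t) ≠ G → ∃ m ∈ M, pos t < m := by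
    intro t h1 h2 h
    obtain ⟨m, hm, h3⟩ := gp_ne_top (by rw [← hGd]; exact h)
    refine ⟨m, hm, lt_of_le_of_ne h3 ?_⟩
    rintro rfl
    exact hMb t h1 h2 hm
  -- no inner letters
  have inner : ∀ u ∈ B, p u ∈ B → G < pos u → G < pos (p u) → False := by
    intro u0 hu0 hpu0 h1 h2
    obtain ⟨t0, ht0, hmin⟩ := Finset.exists_min_image ((B.filter (fun t => decide (p t ∈ B ∧ G < pos t ∧ G < pos (p t)))).toFinset) pos
      ⟨u0, by rw [List.mem_toFinset, List.mem_filter]; exact ⟨hu0, by simpa using ⟨hpu0, h1, h2⟩⟩⟩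
    have hmin' : ∀ t ∈ B, p t ∈ B → G < pos t → G < pos (p t) → pos t0 ≤ pos t := by
      intro t h3 h4 h5 h6
      apply hmin
      rw [List.mem_toFinset, List.mem_filter]
      exact ⟨h3, by simpa using ⟨h4, h5, h6⟩⟩
    rw [List.mem_toFinset, List.mem_filter] at ht0
    obtain ⟨t01, t02⟩ := ht0
    have t03 : p t0 ∈ B ∧ G < pos t0 ∧ G < pos (p t0) := by simpa using t02
    obtain ⟨t04, t05, t06⟩ := t03
    have hB0 : sg pos B 0 NN = B := sg_all (fun m hm => ⟨hpos1 m hm, hposN m hm⟩)
    have hsplit : B = sg pos B 0 (pos t0) ++ t0 :: sg pos B (pos t0) NN := by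
      conv_lhs => rw [← hB0, sg_split hs t01 (hpos1 _ t01) (hposN _ t01)]
    have hmemS : ∀ t, t ∈ t0 :: sg pos B (pos t0) NN ↔ t ∈ B ∧ pos t0 ≤ pos t := by
      intro t
      rw [List.mem_cons, mem_sg]
      constructor
      · rintro (rfl | h)
        · exact ⟨t01, le_rfl⟩
        · exact ⟨h.1, h.2.1.le⟩
      · rintro ⟨h3, h4⟩
        rcases Nat.lt_or_ge (pos t0) (pos t) with h5 | h5
        · exact Or.inr ⟨h3, h5, hposN t h3⟩
        · exact Or.inl (hs.inj h3 t01 (by omega))
    obtain ⟨t, ht, ht'⟩ := hcl _ _ hsplit (by simp)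
    rw [hmemS] at ht ht'
    have hpt : p t ∈ B := hMb' t ht.1 (fun h => by have := hGle _ h; omega)
    have hpt2 : pos (p t) < pos t0 := by
      by_contra h3
      exact ht' ⟨hpt, by omega⟩
    have hptG : pos (p t) < G := by
      by_contra h3
      have h4 : pos (p t) ≠ G := fun h => hMb (p t) hpt (by rw [hinv]; exact ht.1) (by rw [h]; exact hGM)
      have := hmin' (p t) hpt (by rw [hinv]; exact ht.1) (by omega) (by rw [hinv]; omega)
      omega
    -- the first token behind t0 which is not inner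
    obtain ⟨t1, ht1, hmin1⟩ := Finset.exists_min_image ((B.filter (fun t => decide (p t ∈ B ∧ pos t0 < pos t ∧ pos (p t) < G))).toFinset) pos
      ⟨t, by
        rw [List.mem_toFinset, List.mem_filter]
        refine ⟨ht.1, ?_⟩
        have : pos t0 ≠ pos t := by
          intro h
          have := hs.inj t01 ht.1 h
          rw [this] at t06
          omega
        have h3 := ht.2
        simp only [decide_eq_true_eq]
        exact ⟨hpt, by omega, hptG⟩⟩
    have hmin1' : ∀ t ∈ B, p t ∈ B → pos t0 < pos t → pos (p t) < G → pos t1 ≤ pos t := by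
      intro t h3 h4 h5 h6
      apply hmin1
      rw [List.mem_toFinset, List.mem_filter]
      exact ⟨h3, by simpa using ⟨h4, h5, h6⟩⟩
    rw [List.mem_toFinset, List.mem_filter] at ht1
    obtain ⟨t11, t12⟩ := ht1
    have t13 : p t1 ∈ B ∧ pos t0 < pos t1 ∧ pos (p t1) < G := by simpa using t12
    obtain ⟨t14, t15, t16⟩ := t13
    -- the token before t1
    obtain ⟨t2, ht2, hmax⟩ := Finset.exists_max_image ((B.filter (fun t => decide (pos t < pos t1))).toFinset) pos
      ⟨t0, by rw [List.mem_toFinset, List.mem_filter]; exact ⟨t01, by simpa using t15⟩⟩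
    have hmax' : ∀ t ∈ B, pos t < pos t1 → pos t ≤ pos t2 := by
      intro t h3 h4
      apply hmax
      rw [List.mem_toFinset, List.mem_filter]
      exact ⟨h3, by simpa using h4⟩
    rw [List.mem_toFinset, List.mem_filter] at ht2
    obtain ⟨t21, t22⟩ := ht2
    have t23 : pos t2 < pos t1 := by simpa using t22
    have t24 : pos t0 ≤ pos t2 := hmax' t0 t01 t15
    have t25 : p t2 ∈ B := hMb' t2 t21 (fun h => by have := hGle _ h; omega)
    have t26 : G < pos (p t2) := by
      by_contra h3
      have h4 : pos (p t2) ≠ G := fun h => hMb (p t2) t25 (by rw [hinv]; exact t21) (by rw [h]; exact hGM)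
      have h5 : pos t0 ≠ pos t2 := by
        intro h
        have := hs.inj t01 t21 h
        rw [this] at t06
        omega
      have := hmin1' t2 t21 t25 (by omega) (by omega)
      omega
    refine kk t2 t1 t21 t25 t11 t14 ?_ t23 ?_ ?_ ?_ G hGM t16 ?_ ?_
    · rintro rfl
      rw [hinv] at t16
      omega
    · intro m hm h3 h4
      have := hGle m hm
      omega
    · rintro ⟨h3, h4⟩
      have := hmax' _ t25 h4
      omega
    · rintro ⟨h3, h4⟩
      have := hmax' _ t14 h4
      omega
    · omega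
    · omega
  have H0 : ∀ u ∈ S, gp M (pos u) ≠ G := by
    intro u hu h
    obtain ⟨u1, u2, u3⟩ := (hSmem u).1 hu
    have := htop _ (hpos1 u u1) h
    exact inner u u1 u2 this (by omega)
  have hMno : ∀ (t t' m : ℕ), 0 < t → gp M t = gp M t' → m ∈ M → t ≤ m → m < t' → False := fun t t' m h1 h2 h3 h4 h5 => gp_eq h2 h1 h3 h4 h5
  have hgm : ∀ {a b : ℕ}, a ≤ b → gp M a ≤ gp M b := fun h => gp_mono h
  have H1 : ∀ u ∈ S, ∀ v ∈ S, pos (p u) < pos v → gp M (pos u) = gp M (pos (p v)) → gp M (pos (p v)) ≠ G → False := by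
    intro u hu v hv h1 h2 h3
    obtain ⟨u1, u2, u3⟩ := (hSmem u).1 hu
    obtain ⟨v1, v2, v3⟩ := (hSmem v).1 hv
    obtain ⟨c, hc, hc1⟩ := hntop _ v2 (by rw [hinv]; exact v1) h3
    refine kk (p u) v u2 (by rw [hinv]; exact u1) v1 v2 ?_ h1 ?_ ?_ ?_ c hc hc1 ?_ ?_
    · rw [hinv]
      rintro rfl
      omega
    · intro m hm h4 h5
      exact hMno _ _ _ (hpos1 _ u1) h2 hm (by omega) (by omega)
    · rw [hinv]; omega
    · omega
    · omega
    · rw [hinv]; omega
  have H2 : ∀ u ∈ S, ∀ v ∈ S, pos u < pos v → pos v < pos (p u) → pos (p u) < pos (p v) → gp M (pos u) = gp M (pos (p v)) →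
      gp M (pos (p v)) ≠ G → False := by
    intro u hu v hv h0 h01 h1 h2 h3
    obtain ⟨u1, u2, u3⟩ := (hSmem u).1 hu
    obtain ⟨v1, v2, v3⟩ := (hSmem v).1 hv
    obtain ⟨c, hc, hc1⟩ := hntop _ v2 (by rw [hinv]; exact v1) h3
    refine kk u v u1 u2 v1 v2 (hSne u hu v hv) h0 ?_ ?_ ?_ c hc hc1 ?_ ?_
    · intro m hm h4 h5
      exact hMno _ _ _ (hpos1 _ u1) h2 hm (by omega) (by omega)
    · omega
    · omega
    · omega
    · omega
  have H5 : ∀ u ∈ S, ∀ v ∈ S, pos (p u) < pos (p v) → gp M (pos (p u)) = gp M (pos (p v)) → gp M (pos u) < gp M (pos (p u)) →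
      gp M (pos v) < gp M (pos (p v)) → ¬ (gp M (pos u) = gp M (pos v) ∧ pos v < pos u) → False := by
    intro u hu v hv h1 h2 h3 h4 h5
    obtain ⟨u1, u2, u3⟩ := (hSmem u).1 hu
    obtain ⟨v1, v2, v3⟩ := (hSmem v).1 hv
    obtain ⟨w1, w2, w3⟩ := gp_ne (hpos1 _ v1) h4
    have w4 : pos v ≠ gp M (pos (p v)) := fun h => hMb v v1 v2 (by rw [h]; exact w1)
    obtain ⟨c, hc, hc1, hc2⟩ := nxt ⟨_, w1, lt_of_le_of_ne w2 w4⟩
    have hc3 := hc2 _ w1 (lt_of_le_of_ne w2 w4)
    have hc4 : c < pos (p u) := by
      rw [← h2] at hc3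
      have := gp_lt (M := M) (hpos1 _ u2)
      omega
    refine kk (p u) (p v) u2 (by rw [hinv]; exact u1) v2 (by rw [hinv]; exact v1) ?_ h1 ?_ ?_ ?_ c hc (by rw [hinv]; exact hc1) ?_ ?_
    · rw [hinv]
      exact fun h => hSne v hv u hu h.symm
    · intro m hm h6 h7
      exact hMno _ _ _ (hpos1 _ u2) h2 hm (by omega) (by omega)
    · rw [hinv]; omega
    · rw [hinv]; omega
    · rw [hinv]; omega
    · rw [hinv, hinv]
      rintro ⟨h6, h7⟩
      apply h5
      refine ⟨le_antisymm (gp_le_of (fun m hm h8 => ?_)) (hgm h6.le), h6⟩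
      by_contra h9
      have h10 : m ≠ pos v := fun h => hMb v v1 v2 (by rw [← h]; exact hm)
      have := hc2 m hm (by omega)
      omega
  have H7 : ∀ u ∈ S, ∀ v ∈ S, pos u < pos v → gp M (pos u) = gp M (pos v) → gp M (pos u) < gp M (pos (p u)) →
      gp M (pos v) < gp M (pos (p v)) → gp M (pos (p v)) ≠ G → ¬ (gp M (pos (p u)) = gp M (pos (p v)) ∧ pos (p v) < pos (p u)) → False := by
    intro u hu v hv h1 h2 h3 h4 h5 h6
    obtain ⟨u1, u2, u3⟩ := (hSmem u).1 hu
    obtain ⟨v1, v2, v3⟩ := (hSmem v).1 hv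
    obtain ⟨c, hc, hc1, hc2⟩ := nxt (hntop _ v2 (by rw [hinv]; exact v1) h5)
    refine kk u v u1 u2 v1 v2 (hSne u hu v hv) h1 ?_ ?_ ?_ c hc hc1 ?_ ?_
    · intro m hm h7 h8
      exact hMno _ _ _ (hpos1 _ u1) h2 hm (by omega) (by omega)
    · rintro ⟨h7, h8⟩
      have := hgm h8.le
      omega
    · omega
    · omega
    · rintro ⟨h7, h8⟩
      apply h6
      refine ⟨le_antisymm (gp_le_of (fun m hm h9 => ?_)) (hgm h7.le), h7⟩
      by_contra h10
      have h11 : m ≠ pos (p v) := fun h => hMb (p v) v2 (by rw [hinv]; exact v1) (by rw [← h]; exact hm)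
      have := hc2 m hm (by omega)
      omega
  -- sub-states
  have hGf : ∀ E : List Ω, Gd p (A.filter (zz p A B E), B.filter (zz p A B E)) := fun E => hG.filter _ (fun t => zz_p hinv t)
  have hfin : ∀ E : List Ω, ¬ Dr (A.filter (zz p A B E), B.filter (zz p A B E)) := by
    intro E h
    apply hDr
    exact hD.lift (zz p A B E) _ _ hG (fun t => zz_p hinv t) (fun t h1 h2 => zz_mix hG h1 h2) h
  have memE : ∀ (E : List Ω) (m : Ω), m ∈ B.filter (zz p A B (x :: E)) → (∃ e ∈ E, m = e ∨ m = p e) ∨ pos m ∈ M := by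
    intro E m hm
    rw [List.mem_filter] at hm
    rcases zz_memB hG hm.1 hm.2 with h1 | h1 | h1
    · rcases List.mem_cons.1 h1 with h2 | h2
      · rw [h2] at hm
        exact absurd hm.1 hxB
      · exact Or.inl ⟨m, h2, Or.inl rfl⟩
    · rcases List.mem_cons.1 h1 with h2 | h2
      · rw [← h2, hinv] at hpxB
        exact absurd hm.1 hpxB
      · exact Or.inl ⟨p m, h2, Or.inr (hinv m).symm⟩
    · exact Or.inr ((hMmem _).2 ⟨m, hm.1, h1, rfl⟩)
  have hinL : ∀ (E : List Ω) (m : Ω), m ∈ B → (m ∈ E ∨ p m ∈ E) → m ∈ B.filter (zz p A B (x :: E)) := by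
    intro E m h1 h2
    rw [List.mem_filter, zz_iff]
    refine ⟨h1, ?_⟩
    rcases h2 with h2 | h2
    · exact Or.inl (List.mem_cons_of_mem _ h2)
    · exact Or.inr (Or.inl (List.mem_cons_of_mem _ h2))
  have hall : ∀ (z : Ω → Bool), sg pos (B.filter z) 0 NN = B.filter z := by
    intro z
    apply sg_all
    intro m hm
    have := (List.mem_filter.1 hm).1
    exact ⟨hpos1 m this, hposN m this⟩
  have hxz : ∀ E, x ∈ A.filter (zz p A B (x :: E)) := fun E => List.mem_filter.2 ⟨hx, by rw [zz_iff]; simp⟩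
  have hxz' : ∀ E, p x ∈ A.filter (zz p A B (x :: E)) := fun E => List.mem_filter.2 ⟨hx', by rw [zz_iff, hinv]; simp⟩
  have useA : ∀ (E : List Ω) (t : Ω), t ∈ B → p t ∈ A →
      (∀ (x' : Ω) (P Q R : List Ω), Gd p (p t :: P ++ x' :: Q ++ p x' :: R, B.filter (zz p A B (x :: E))) →
        Dr (p t :: P ++ x' :: Q ++ p x' :: R, B.filter (zz p A B (x :: E)))) → False := by
    intro E t h1 h2 H
    apply hfin (x :: E)
    refine blueA hinv hD (hGf _) (c := p t) (x := x) (List.mem_filter.2 ⟨h2, ?_⟩) (hxz E) (hxz' E) ?_ ?_ (hne x) H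
    · exact zz_mix hG h2 (by rw [hinv]; exact h1)
    · rintro h
      rw [← h, hinv] at hpxB
      exact hpxB h1
    · intro h
      have : t = x := by rw [← hinv t, h, hinv]
      rw [this] at h1
      exact hxB h1
  have H6 : ∀ u ∈ S, ∀ v ∈ S, ∀ w ∈ S, pos u < pos v → pos v < pos w → pos (p w) < pos (p v) → pos (p v) < pos (p u) →
      gp M (pos u) = gp M (pos w) → gp M (pos (p w)) = gp M (pos (p u)) → gp M (pos w) < gp M (pos (p w)) → False := by
    intro u hu v hv w hw h1 h2 h3 h4 h5 h6 h7
    obtain ⟨u1, u2, u3⟩ := (hSmem u).1 hu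
    obtain ⟨v1, v2, v3⟩ := (hSmem v).1 hv
    obtain ⟨w1, w2, w3⟩ := (hSmem w).1 hw
    obtain ⟨c1, c2, c3⟩ := gp_ne (hpos1 _ w1) h7
    obtain ⟨t, t1, t2, t3⟩ := (hMmem _).1 c1
    have hwt : pos w ≠ pos t := by
      intro h
      have := hs.inj w1 t1 h
      rw [← this] at t2
      exact hdis t2 w2
    apply useA [u, v, w] t t1 t2
    intro x' P Q R hG2
    have hL := hs.filter (zz p A B (x :: [u, v, w]))
    have mu := hinL [u, v, w] u u1 (by simp)
    have mu' := hinL [u, v, w] (p u) u2 (by simp [hinv])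
    have mv := hinL [u, v, w] v v1 (by simp)
    have mv' := hinL [u, v, w] (p v) v2 (by simp [hinv])
    have mw := hinL [u, v, w] w w1 (by simp)
    have mw' := hinL [u, v, w] (p w) w2 (by simp [hinv])
    have mt : t ∈ B.filter (zz p A B (x :: [u, v, w])) := List.mem_filter.2 ⟨t1, by
      rw [← zz_p hinv]; exact zz_mix hG t2 (by rw [hinv]; exact t1)⟩
    have e := wv_eq (b := NN) hL [u, v, w, t, p w, p v, p u] 0 (by
      intro t' ht'
      simp only [List.mem_cons, List.not_mem_nil, or_false] at ht'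
      rcases ht' with rfl | rfl | rfl | rfl | rfl | rfl | rfl <;> assumption)
      ⟨hpos1 _ u1, hposN _ u1, h1, hposN _ v1, h2, hposN _ w1, by omega, hposN _ t1, by omega, hposN _ w2, h3, hposN _ v2, h4, hposN _ u2, trivial⟩
    have nn : ∀ a' b' : ℕ, (∀ m ∈ M, a' < m → m < b' → False) → (∀ n : ℕ, (n = pos u ∨ n = pos (p u) ∨ n = pos v ∨ n = pos (p v) ∨ n = pos w ∨
        n = pos (p w)) → a' < n → n < b' → False) → sg pos (B.filter (zz p A B (x :: [u, v, w]))) a' b' = [] := by
      intro a' b' h9 h10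
      apply sg_nil
      intro m hm h11 h12
      rcases memE _ m hm with h13 | h13
      · simp only [List.mem_cons, List.not_mem_nil, or_false, exists_eq_or_imp, exists_eq_left] at h13
        refine h10 (pos m) ?_ h11 h12
        rcases h13 with (rfl | rfl) | (rfl | rfl) | rfl | rfl <;> (first | grind | tauto)
      · exact h9 _ h13 h11 h12
    have hno : ∀ m ∈ M, pos u < m → m < pos w → False := fun m hm h8 h9 => hMno _ _ _ (hpos1 _ u1) h5 hm (by omega) h9
    have hno2 : ∀ m ∈ M, pos (p w) < m → m < pos (p u) → False := fun m hm h8 h9 => hMno _ _ _ (hpos1 _ w2) h6 hm (by omega) h9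
    have n1 := nn (pos u) (pos v) (fun m hm h9 h10 => hno m hm (by omega) (by omega)) (by intro n hn h8 h9; omega)
    have n2 := nn (pos v) (pos w) (fun m hm h9 h10 => hno m hm (by omega) (by omega)) (by intro n hn h8 h9; omega)
    have n3 := nn (pos (p w)) (pos (p v)) (fun m hm h9 h10 => hno2 m hm (by omega) (by omega)) (by intro n hn h8 h9; omega)
    have n4 := nn (pos (p v)) (pos (p u)) (fun m hm h9 h10 => hno2 m hm (by omega) (by omega)) (by intro n hn h8 h9; omega)
    rw [hall] at e
    simp only [wv, n1, n2, n3, n4, List.nil_append] at e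
    rw [e] at hG2 ⊢
    have := hC.N3' (p t) x' u v w P Q R (sg pos (B.filter (zz p A B (x :: [u, v, w]))) 0 (pos u))
      (sg pos (B.filter (zz p A B (x :: [u, v, w]))) (pos w) (pos t))
      (sg pos (B.filter (zz p A B (x :: [u, v, w]))) (pos t) (pos (p w)))
      (sg pos (B.filter (zz p A B (x :: [u, v, w]))) (pos (p u)) NN) (by rw [hinv]; simpa using hG2)
    rw [hinv] at this
    simpa using this
  have H4 : ∀ a ∈ S, ∀ b ∈ S, ∀ d ∈ S, gp M (pos a) = gp M (pos (p a)) → gp M (pos b) = gp M (pos (p b)) → gp M (pos d) = gp M (pos (p d)) →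
      pos (p a) < pos b → pos (p b) < pos d → gp M (pos (p d)) ≠ G → False := by
    intro u hu v hv w hw h1 h2 h3 h4 h5 h6
    obtain ⟨u1, u2, u3⟩ := (hSmem u).1 hu
    obtain ⟨v1, v2, v3⟩ := (hSmem v).1 hv
    obtain ⟨w1, w2, w3⟩ := (hSmem w).1 hw
    obtain ⟨n0, c1, c2⟩ := hntop _ w2 (by rw [hinv]; exact w1) h6
    obtain ⟨t, t1, t2, rfl⟩ := (hMmem _).1 c1
    apply useA [u, v, w] t t1 t2
    intro x' P Q R hG2
    have hL := hs.filter (zz p A B (x :: [u, v, w]))
    have mu := hinL [u, v, w] u u1 (by simp)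
    have mu' := hinL [u, v, w] (p u) u2 (by simp [hinv])
    have mv := hinL [u, v, w] v v1 (by simp)
    have mv' := hinL [u, v, w] (p v) v2 (by simp [hinv])
    have mw := hinL [u, v, w] w w1 (by simp)
    have mw' := hinL [u, v, w] (p w) w2 (by simp [hinv])
    have mt : t ∈ B.filter (zz p A B (x :: [u, v, w])) := List.mem_filter.2 ⟨t1, by
      rw [← zz_p hinv]; exact zz_mix hG t2 (by rw [hinv]; exact t1)⟩
    have e := wv_eq (b := NN) hL [u, p u, v, p v, w, p w, t] 0 (by
      intro t' ht'
      simp only [List.mem_cons, List.not_mem_nil, or_false] at ht'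
      rcases ht' with rfl | rfl | rfl | rfl | rfl | rfl | rfl <;> assumption)
      ⟨hpos1 _ u1, hposN _ u1, u3, hposN _ u2, h4, hposN _ v1, v3, hposN _ v2, h5, hposN _ w1, w3, hposN _ w2, c2, hposN _ t1, trivial⟩
    have nn : ∀ a' b' : ℕ, (∀ m ∈ M, a' < m → m < b' → False) → (∀ n : ℕ, (n = pos u ∨ n = pos (p u) ∨ n = pos v ∨ n = pos (p v) ∨ n = pos w ∨
        n = pos (p w)) → a' < n → n < b' → False) → sg pos (B.filter (zz p A B (x :: [u, v, w]))) a' b' = [] := by
      intro a' b' h9 h10
      apply sg_nil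
      intro m hm h11 h12
      rcases memE _ m hm with h13 | h13
      · simp only [List.mem_cons, List.not_mem_nil, or_false, exists_eq_or_imp, exists_eq_left] at h13
        refine h10 (pos m) ?_ h11 h12
        rcases h13 with (rfl | rfl) | (rfl | rfl) | rfl | rfl <;> (first | grind | tauto)
      · exact h9 _ h13 h11 h12
    have n1 := nn (pos u) (pos (p u)) (fun m hm h9 h10 => hMno _ _ _ (hpos1 _ u1) h1 hm h9.le h10) (by intro n hn h8 h9; omega)
    have n2 := nn (pos v) (pos (p v)) (fun m hm h9 h10 => hMno _ _ _ (hpos1 _ v1) h2 hm h9.le h10) (by intro n hn h8 h9; omega)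
    have n3 := nn (pos w) (pos (p w)) (fun m hm h9 h10 => hMno _ _ _ (hpos1 _ w1) h3 hm h9.le h10) (by intro n hn h8 h9; omega)
    rw [hall] at e
    simp only [wv, n1, n2, n3, List.nil_append] at e
    rw [e] at hG2 ⊢
    have := hC.D3' (p t) x' u v w P Q R (sg pos (B.filter (zz p A B (x :: [u, v, w]))) 0 (pos u))
      (sg pos (B.filter (zz p A B (x :: [u, v, w]))) (pos (p u)) (pos v))
      (sg pos (B.filter (zz p A B (x :: [u, v, w]))) (pos (p v)) (pos w))
      (sg pos (B.filter (zz p A B (x :: [u, v, w]))) (pos (p w)) (pos t))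
      (sg pos (B.filter (zz p A B (x :: [u, v, w]))) (pos t) NN) (by rw [hinv]; simpa using hG2)
    rw [hinv] at this
    simpa using this
  have H3 : ∀ a ∈ S, ∀ b ∈ S, ∀ d ∈ S, ∀ e ∈ S, pos a < pos b → pos b < pos d → pos d < pos e → pos (p e) < pos (p d) →
      pos (p d) < pos (p b) → pos (p b) < pos (p a) → gp M (pos a) = gp M (pos (p a)) → gp M (pos (p a)) ≠ G → False := by
    intro a ha b hb d hd e he h1 h2 h3 h4 h5 h6 h7 h8
    obtain ⟨a1, a2, a3⟩ := (hSmem a).1 ha
    obtain ⟨b1, b2, b3⟩ := (hSmem b).1 hb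
    obtain ⟨d1, d2, d3⟩ := (hSmem d).1 hd
    obtain ⟨e1, e2, e3⟩ := (hSmem e).1 he
    obtain ⟨n0, c1, c2⟩ := hntop _ a2 (by rw [hinv]; exact a1) h8
    obtain ⟨t, t1, t2, rfl⟩ := (hMmem _).1 c1
    have hL := hs.filter (zz p A B (x :: [a, b, d, e]))
    have ma := hinL [a, b, d, e] a a1 (by simp)
    have ma' := hinL [a, b, d, e] (p a) a2 (by simp [hinv])
    have mb := hinL [a, b, d, e] b b1 (by simp)
    have mb' := hinL [a, b, d, e] (p b) b2 (by simp [hinv])
    have md := hinL [a, b, d, e] d d1 (by simp)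
    have md' := hinL [a, b, d, e] (p d) d2 (by simp [hinv])
    have me := hinL [a, b, d, e] e e1 (by simp)
    have me' := hinL [a, b, d, e] (p e) e2 (by simp [hinv])
    have mt : t ∈ B.filter (zz p A B (x :: [a, b, d, e])) := List.mem_filter.2 ⟨t1, by
      rw [← zz_p hinv]; exact zz_mix hG t2 (by rw [hinv]; exact t1)⟩
    have ee := wv_eq (b := NN) hL [a, b, d, e, p e, p d, p b, p a] 0 (by
      intro t' ht'
      simp only [List.mem_cons, List.not_mem_nil, or_false] at ht'
      rcases ht' with rfl | rfl | rfl | rfl | rfl | rfl | rfl | rfl <;> assumption)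
      ⟨hpos1 _ a1, hposN _ a1, h1, hposN _ b1, h2, hposN _ d1, h3, hposN _ e1, e3, hposN _ e2, h4, hposN _ d2, h5, hposN _ b2, h6, hposN _ a2, trivial⟩
    have hno : ∀ m ∈ M, pos a < m → m < pos (p a) → False := fun m hm h9 h10 => hMno _ _ _ (hpos1 _ a1) h7 hm (by omega) h10
    have nn : ∀ a' b' : ℕ, pos a ≤ a' → b' ≤ pos (p a) → (∀ n : ℕ, (n = pos a ∨ n = pos (p a) ∨ n = pos b ∨ n = pos (p b) ∨ n = pos d ∨
        n = pos (p d) ∨ n = pos e ∨ n = pos (p e)) → a' < n → n < b' → False) →
        sg pos (B.filter (zz p A B (x :: [a, b, d, e]))) a' b' = [] := by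
      intro a' b' h9 h10 h11
      apply sg_nil
      intro m hm h12 h13
      rcases memE _ m hm with h14 | h14
      · simp only [List.mem_cons, List.not_mem_nil, or_false, exists_eq_or_imp, exists_eq_left] at h14
        refine h11 (pos m) ?_ h12 h13
        rcases h14 with (rfl | rfl) | (rfl | rfl) | (rfl | rfl) | rfl | rfl <;> (first | grind | tauto)
      · exact hno _ h14 (by omega) (by omega)
    have n1 := nn (pos a) (pos b) (by omega) (by omega) (by intro n hn h9 h10; omega)
    have n2 := nn (pos b) (pos d) (by omega) (by omega) (by intro n hn h9 h10; omega)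
    have n3 := nn (pos d) (pos e) (by omega) (by omega) (by intro n hn h9 h10; omega)
    have n4 := nn (pos e) (pos (p e)) (by omega) (by omega) (by intro n hn h9 h10; omega)
    have n5 := nn (pos (p e)) (pos (p d)) (by omega) (by omega) (by intro n hn h9 h10; omega)
    have n6 := nn (pos (p d)) (pos (p b)) (by omega) (by omega) (by intro n hn h9 h10; omega)
    have n7 := nn (pos (p b)) (pos (p a)) (by omega) (by omega) (by intro n hn h9 h10; omega)
    rw [hall] at ee
    simp only [wv, n1, n2, n3, n4, n5, n6, n7, List.nil_append] at ee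
    apply hfin (x :: [a, b, d, e])
    have hG2 := hGf (x :: [a, b, d, e])
    -- the outer tokens are mixed
    have hout : ∀ m ∈ B.filter (zz p A B (x :: [a, b, d, e])), (pos m < pos a ∨ pos (p a) < pos m) → p m ∈ A := by
      intro m hm h9
      rcases memE _ m hm with h14 | h14
      · exfalso
        simp only [List.mem_cons, List.not_mem_nil, or_false, exists_eq_or_imp, exists_eq_left] at h14
        rcases h14 with (rfl | rfl) | (rfl | rfl) | (rfl | rfl) | rfl | rfl <;> omega
      · obtain ⟨t', k1, k2, k3⟩ := (hMmem _).1 h14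
        have := hs.inj k1 (List.mem_filter.1 hm).1 k3
        rwa [this] at k2
    have key := hNEST Ω p Dr hinv hne hD hC x a b d e (A.filter (zz p A B (x :: [a, b, d, e])))
      (sg pos (B.filter (zz p A B (x :: [a, b, d, e]))) 0 (pos a)) (sg pos (B.filter (zz p A B (x :: [a, b, d, e]))) (pos (p a)) NN)
      (by rw [ee] at hG2; exact hG2) (hxz _) (hxz' _) (by
        intro m hm
        have hm' := List.mem_filter.1 hm
        have hmz : zz p A B (x :: [a, b, d, e]) (p m) = true := by rw [zz_p hinv]; exact hm'.2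
        rcases zz_memA hG hm'.1 hm'.2 with h9 | h9 | h9
        · simp only [List.mem_cons, List.not_mem_nil, or_false] at h9
          rcases h9 with rfl | rfl | rfl | rfl | rfl
          · exact Or.inl rfl
          · exact absurd a1 (fun h => hdis hm'.1 h)
          · exact absurd b1 (fun h => hdis hm'.1 h)
          · exact absurd d1 (fun h => hdis hm'.1 h)
          · exact absurd e1 (fun h => hdis hm'.1 h)
        · simp only [List.mem_cons, List.not_mem_nil, or_false] at h9
          rcases h9 with h9 | h9 | h9 | h9 | h9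
          · exact Or.inr (Or.inl (by rw [← h9, hinv]))
          · have : m = p a := by rw [← h9, hinv]
            rw [this] at hm'
            exact absurd a2 (fun h => hdis hm'.1 h)
          · have : m = p b := by rw [← h9, hinv]
            rw [this] at hm'
            exact absurd b2 (fun h => hdis hm'.1 h)
          · have : m = p d := by rw [← h9, hinv]
            rw [this] at hm'
            exact absurd d2 (fun h => hdis hm'.1 h)
          · have : m = p e := by rw [← h9, hinv]
            rw [this] at hm'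
            exact absurd e2 (fun h => hdis hm'.1 h)
        · right; right
          have hmM : pos (p m) ∈ M := (hMmem _).2 ⟨p m, h9, by rw [hinv]; exact hm'.1, rfl⟩
          have h10 : pos (p m) ≠ pos a := fun h => hMb a a1 a2 (by rw [← h]; exact hmM)
          have h11 : pos (p m) ≠ pos (p a) := fun h => hMb (p a) a2 (by rw [hinv]; exact a1) (by rw [← h]; exact hmM)
          rcases Nat.lt_or_ge (pos (p m)) (pos a) with h12 | h12
          · exact Or.inl (mem_sg.2 ⟨List.mem_filter.2 ⟨h9, hmz⟩, hpos1 _ h9, h12⟩)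
          · rcases Nat.lt_or_ge (pos (p a)) (pos (p m)) with h13 | h13
            · exact Or.inr (mem_sg.2 ⟨List.mem_filter.2 ⟨h9, hmz⟩, h13, hposN _ h9⟩)
            · exact (hno _ hmM (by omega) (by omega)).elim)
      (by
        intro m hm
        rw [List.mem_append, mem_sg, mem_sg] at hm
        rw [List.mem_filter]
        have hmB : m ∈ B.filter (zz p A B (x :: [a, b, d, e])) := by
          rcases hm with h | h
          · exact h.1
          · exact h.1
        refine ⟨hout m hmB (by
          rcases hm with h | h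
          · exact Or.inl h.2.2
          · exact Or.inr h.2.1), ?_⟩
        rw [zz_p hinv]
        exact (List.mem_filter.1 hmB).2)
      (by
        intro h
        have : t ∈ sg pos (B.filter (zz p A B (x :: [a, b, d, e]))) (pos (p a)) NN := mem_sg.2 ⟨mt, c2, hposN _ t1⟩
        rw [h] at this
        simp at this)
    rw [ee]
    exact key
  obtain ⟨T, hTS, hTc, hTo, hTr⟩ := combB S hScard pos (fun t => pos (p t)) (gp M) G (fun a b h => gp_mono h) (fun u hu => ((hSmem u).1 hu).2.2)
    (fun u hu v hv h => hs.inj ((hSmem u).1 hu).1 ((hSmem v).1 hv).1 h)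
    (fun u hu v hv h => by
      have := hs.inj ((hSmem u).1 hu).2.1 ((hSmem v).1 hv).2.1 h
      rw [← hinv u, this, hinv])
    (fun u hu v hv h => by
      have h1 := hs.inj ((hSmem u).1 hu).1 ((hSmem v).1 hv).2.1 h
      exact hSne v hv u hu h1)
    H0 H1 H2 H3 H4 H5 H6 H7
  have hFT : ∀ t, (t ∈ T.toList ∨ p t ∈ T.toList) → ∃ u ∈ T, t = u ∨ t = p u := by
    intro t ht
    rcases ht with ht | ht
    · exact ⟨t, Finset.mem_toList.1 ht, Or.inl rfl⟩
    · exact ⟨p t, Finset.mem_toList.1 ht, Or.inr (hinv t).symm⟩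
  have hlen := hF T.toList (Finset.nodup_toList T) (by
    intro t ht
    rw [Finset.mem_toList] at ht
    obtain ⟨h1, h2, h3⟩ := (hSmem t).1 (hTS ht)
    refine ⟨h1, h2, ?_⟩
    intro h4
    rw [Finset.mem_toList] at h4
    obtain ⟨h5, h6, h7⟩ := (hSmem (p t)).1 (hTS h4)
    rw [hinv] at h7
    omega) (by
    intro X Y Z t t' hA ht ht'
    obtain ⟨u, hu, htu⟩ := hFT t ht
    obtain ⟨u', hu', htu'⟩ := hFT t' ht'
    obtain ⟨u1, u2, u3⟩ := (hSmem u).1 (hTS hu)
    obtain ⟨u1', u2', u3'⟩ := (hSmem u').1 (hTS hu')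
    have hlt : pos t < pos t' := by
      have h1 := hs
      rw [hA] at h1
      unfold Srt at h1
      rw [List.pairwise_append, List.pairwise_cons] at h1
      exact h1.2.1.1 _ (by simp)
    have hgne : gp M (pos t) ≠ gp M (pos t') := by
      by_cases huu : u = u'
      · subst huu
        have h1 := (hTo u hu).1
        rcases htu with rfl | rfl <;> rcases htu' with rfl | rfl
        · omega
        · exact h1
        · exact fun h => h1 h.symm
        · omega
      · obtain ⟨r1, r2, r3, r4⟩ := hTr u hu u' hu' huu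
        rcases htu with rfl | rfl <;> rcases htu' with rfl | rfl
        · exact r1
        · exact r2
        · exact r3
        · exact r4
    have hglt : gp M (pos t) < gp M (pos t') := lt_of_le_of_ne (gp_mono hlt.le) hgne
    have htB : t ∈ B := by rw [hA]; simp
    obtain ⟨m1, m2, m3⟩ := gp_ne (hpos1 _ htB) hglt
    obtain ⟨m, hm1, hm2, hm3⟩ := (hMmem _).1 m1
    refine ⟨m, ?_, hm2⟩
    have hptB : p t ∈ B := by
      rcases htu with rfl | rfl
      · exact u2
      · rw [hinv]; exact u1
    have hmt : m ≠ t := by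
      rintro rfl
      exact hdis hm2 hptB
    have hmpos : pos t ≠ pos m := fun h => hmt (hs.inj hm1 htB h.symm)
    rw [hA] at hm1
    have h1 := hs
    rw [hA] at h1
    unfold Srt at h1
    rw [List.pairwise_append, List.pairwise_cons, List.pairwise_append, List.pairwise_cons] at h1
    rcases List.mem_append.1 hm1 with h2 | h2
    · have := h1.2.2 m h2 t (by simp)
      omega
    · rcases List.mem_cons.1 h2 with h3 | h3
      · exact absurd h3 hmt
      · rcases List.mem_append.1 h3 with h4 | h4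
        · exact h4
        · exfalso
          rcases List.mem_cons.1 h4 with h5 | h5
          · rw [h5] at hm3
            omega
          · have := h1.2.1.2.2.1.1 m h5
            omega) (by
    intro X Y t hA ht
    obtain ⟨u, hu, htu⟩ := hFT t ht
    obtain ⟨u1, u2, u3⟩ := (hSmem u).1 (hTS hu)
    obtain ⟨o1, o2, o3⟩ := hTo u hu
    have htB : t ∈ B := by rw [hA]; simp
    have ht1 : pos u ≤ pos t ∧ pos t ≤ pos (p u) := by
      rcases htu with rfl | rfl <;> omega
    have h1 := hs
    rw [hA] at h1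
    unfold Srt at h1
    rw [List.pairwise_append, List.pairwise_cons] at h1
    constructor
    · obtain ⟨m, hm1, hm2, hm3⟩ := (hMmem _).1 (gp_mem o2)
      have hm4 := gp_lt (M := M) (hpos1 _ u1)
      refine ⟨m, ?_, hm2⟩
      rw [hA] at hm1
      rcases List.mem_append.1 hm1 with h2 | h2
      · exact h2
      · exfalso
        rcases List.mem_cons.1 h2 with h3 | h3
        · rw [h3] at hm3
          omega
        · have := h1.2.1.1 m h3
          omega
    · obtain ⟨n0, c1, c2⟩ := hntop _ u2 (by rw [hinv]; exact u1) o3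
      obtain ⟨m, hm1, hm2, hm3⟩ := (hMmem _).1 c1
      refine ⟨m, ?_, hm2⟩
      rw [hA] at hm1
      rcases List.mem_append.1 hm1 with h2 | h2
      · have := h1.2.2 m h2 t (by simp)
        omega
      · rcases List.mem_cons.1 h2 with h3 | h3
        · rw [h3] at hm3
          omega
        · exact h3)
  rw [Finset.length_toList] at hlen
  omega

end NTC
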