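import Mathlib

/-!
# MP_c8d30a (A), section 2: isolated red letters, the counting
-/

set_option autoImplicit false

namespace NTC

universe v
variable {ι : Type v}

/-- independent sets in a relation of small degree. -/
theorem greedy (r : ι → ι → Prop) (hr : ∀ u v, r u v → r v u) (d : ℕ) : ∀ (n : ℕ) (S : Finset ι), S.card ≤ n →
    (∀ u ∈ S, ∀ W ⊆ S, (∀ v ∈ W, v ≠ u ∧ r u v) → W.card ≤ d) →
      ∃ T ⊆ S, S.card ≤ (d + 1) * T.card ∧ ∀ u ∈ T, ∀ v ∈ T, u ≠ v → ¬ r u v := by
  classical
  intro n
  induction n with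
  | zero =>
    intro S hS _
    refine ⟨∅, by simp, by simpa using hS, by simp⟩
  | succ n ih =>
    intro S hS h
    rcases S.eq_empty_or_nonempty with rfl | ⟨u, hu⟩
    · exact ⟨∅, by simp, by simp, by simp⟩
    · obtain ⟨W, hW⟩ : ∃ W, W = S.filter (fun v => v ≠ u ∧ r u v) := ⟨_, rfl⟩
      obtain ⟨S', hS'⟩ : ∃ S', S' = S.filter (fun v => v ≠ u ∧ ¬ r u v) := ⟨_, rfl⟩
      have hWc : W.card ≤ d := h u hu W (by rw [hW]; exact Finset.filter_subset _ _) (by
        intro v hv
        rw [hW, Finset.mem_filter] at hv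
        exact hv.2)
      have hsub : S' ⊆ S := by rw [hS']; exact Finset.filter_subset _ _
      have hcard : S.card = 1 + W.card + S'.card := by
        have h1 : S = insert u (W ∪ S') := by
          ext v
          rw [Finset.mem_insert, Finset.mem_union, hW, hS', Finset.mem_filter, Finset.mem_filter]
          constructor
          · intro hv
            by_cases h1 : v = u
            · exact Or.inl h1
            · by_cases h2 : r u v <;> tauto
          · rintro (rfl | h1 | h1)
            · exact hu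
            · exact h1.1
            · exact h1.1
        have h2 : u ∉ W ∪ S' := by
          rw [Finset.mem_union, hW, hS', Finset.mem_filter, Finset.mem_filter]
          tauto
        have h3 : Disjoint W S' := by
          rw [Finset.disjoint_left]
          intro v hv hv'
          rw [hW, Finset.mem_filter] at hv
          rw [hS', Finset.mem_filter] at hv'
          tauto
        conv_lhs => rw [h1]
        rw [Finset.card_insert_of_notMem h2, Finset.card_union_of_disjoint h3]
        omega
      obtain ⟨T, hT, hTc, hTr⟩ := ih S' (by omega) (fun v hv W' hW' h' => h v (hsub hv) W' (hW'.trans hsub) h')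
      have huT : u ∉ T := by
        intro h1
        have := hT h1
        rw [hS', Finset.mem_filter] at this
        exact this.2.1 rfl
      refine ⟨insert u T, ?_, ?_, ?_⟩
      · intro v hv
        rcases Finset.mem_insert.1 hv with rfl | hv
        · exact hu
        · exact hsub (hT hv)
      · rw [Finset.card_insert_of_notMem huT]
        have : (d + 1) * (T.card + 1) = (d + 1) * T.card + (d + 1) := by ring
        omega
      · have hnr : ∀ v ∈ T, ¬ r u v := by
          intro v hv
          have := hT hv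
          rw [hS', Finset.mem_filter] at this
          exact this.2.2
        intro a ha b hb hab
        rcases Finset.mem_insert.1 ha with h1 | h1 <;> rcases Finset.mem_insert.1 hb with h2 | h2
        · exact absurd (h1.trans h2.symm) hab
        · rw [h1]
          exact hnr b h2
        · intro h3
          rw [h2] at h3
          exact hnr a h1 (hr _ _ h3)
        · exact hTr a h1 b h2 hab

/-- elements in increasing order. -/
theorem srt_card (S : Finset ι) (f : ι → ℕ) (hf : ∀ u ∈ S, ∀ v ∈ S, f u = f v → u = v) (k : ℕ) (h : k ≤ S.card) :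
    ∃ a : Fin k → ι, (∀ i, a i ∈ S) ∧ ∀ i j, i < j → f (a i) < f (a j) := by
  classical
  have hc : (S.image f).card = S.card := Finset.card_image_of_injOn (fun u hu v hv h => hf u hu v hv h)
  have hex : ∀ i : Fin k, ∃ u ∈ S, f u = (S.image f).orderEmbOfFin rfl ⟨i.1, by rw [hc]; omega⟩ := by
    intro i
    have := Finset.orderEmbOfFin_mem (S.image f) rfl ⟨i.1, by rw [hc]; omega⟩
    rw [Finset.mem_image] at this
    exact this
  choose a ha hfa using hex
  refine ⟨a, ha, fun i j hij => ?_⟩
  rw [hfa, hfa]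
  exact (OrderEmbedding.lt_iff_lt _).2 hij

/-- Erdos and Szekeres for five numbers. -/
theorem es5 (s : Fin 5 → ℕ) (hs : ∀ i j, i ≠ j → s i ≠ s j) :
    (∃ i j k : Fin 5, i < j ∧ j < k ∧ s i < s j ∧ s j < s k) ∨ ∃ i j k : Fin 5, i < j ∧ j < k ∧ s k < s j ∧ s j < s i := by
  by_contra hn
  rw [not_or] at hn
  obtain ⟨h1, h2⟩ := hn
  have a : ∀ i j k : Fin 5, i < j → j < k → s i < s j → s j < s k → False := fun i j k e1 e2 e3 e4 => h1 ⟨i, j, k, e1, e2, e3, e4⟩
  have b : ∀ i j k : Fin 5, i < j → j < k → s j < s i → s k < s j → False := fun i j k e1 e2 e3 e4 => h2 ⟨i, j, k, e1, e2, e4, e3⟩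
  have n01 := hs 0 1 (by decide)
  have n02 := hs 0 2 (by decide)
  have n03 := hs 0 3 (by decide)
  have n04 := hs 0 4 (by decide)
  have n12 := hs 1 2 (by decide)
  have n13 := hs 1 3 (by decide)
  have n14 := hs 1 4 (by decide)
  have n23 := hs 2 3 (by decide)
  have n24 := hs 2 4 (by decide)
  have n34 := hs 3 4 (by decide)
  have a012 := a 0 1 2 (by decide) (by decide)
  have a013 := a 0 1 3 (by decide) (by decide)
  have a014 := a 0 1 4 (by decide) (by decide)
  have a023 := a 0 2 3 (by decide) (by decide)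
  have a024 := a 0 2 4 (by decide) (by decide)
  have a034 := a 0 3 4 (by decide) (by decide)
  have a123 := a 1 2 3 (by decide) (by decide)
  have a124 := a 1 2 4 (by decide) (by decide)
  have a134 := a 1 3 4 (by decide) (by decide)
  have a234 := a 2 3 4 (by decide) (by decide)
  have b012 := b 0 1 2 (by decide) (by decide)
  have b013 := b 0 1 3 (by decide) (by decide)
  have b014 := b 0 1 4 (by decide) (by decide)
  have b023 := b 0 2 3 (by decide) (by decide)
  have b024 := b 0 2 4 (by decide) (by decide)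
  have b034 := b 0 3 4 (by decide) (by decide)
  have b123 := b 1 2 3 (by decide) (by decide)
  have b124 := b 1 2 4 (by decide) (by decide)
  have b134 := b 1 3 4 (by decide) (by decide)
  have b234 := b 2 3 4 (by decide) (by decide)
  clear a b h1 h2 hs
  rcases lt_or_gt_of_ne n01 with c01 | c01 <;> rcases lt_or_gt_of_ne n12 with c12 | c12 <;>
    first
    | exact a012 c01 c12
    | exact b012 c01 c12
    | (rcases lt_or_gt_of_ne n23 with c23 | c23 <;>
        first
        | exact a123 c12 c23
        | exact b123 c12 c23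
        | (rcases lt_or_gt_of_ne n34 with c34 | c34 <;>
            first
            | exact a234 c23 c34
            | exact b234 c23 c34
            | (rcases lt_or_gt_of_ne n02 with c02 | c02 <;> rcases lt_or_gt_of_ne n24 with c24 | c24 <;>
                first
                | exact a024 c02 c24
                | exact b024 c02 c24
                | exact a023 c02 c23
                | exact b023 c02 c23
                | exact a124 c12 c24
                | exact b124 c12 c24
                | (rcases lt_or_gt_of_ne n13 with c13 | c13 <;>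
                    first
                    | exact a013 c01 c13
                    | exact b013 c01 c13
                    | exact a134 c13 c34
                    | exact b134 c13 c34))))

theorem combR (S : Finset ι) (hS : 290 ≤ S.card) (f s : ι → ℕ) (g : ℕ → ℕ) (hg : ∀ a b, a ≤ b → g a ≤ g b) (hfs : ∀ u ∈ S, f u < s u)
    (hff : ∀ u ∈ S, ∀ v ∈ S, f u = f v → u = v) (hss : ∀ u ∈ S, ∀ v ∈ S, s u = s v → u = v) (hfs' : ∀ u ∈ S, ∀ v ∈ S, f u ≠ s v)
    (H1 : ∀ u ∈ S, ∀ v ∈ S, s u < f v → g (s u) ≠ g (f v))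
    (H2 : ∀ u ∈ S, ∀ v ∈ S, f u < f v → f v < s u → s u < s v → g (s u) ≠ g (s v))
    (H3 : ∀ a ∈ S, ∀ b ∈ S, ∀ d ∈ S, f a < f b → f b < f d → g (f a) = g (f d) → s d < s b → s b < s a → False)
    (H4 : ∀ a ∈ S, ∀ b ∈ S, ∀ d ∈ S, ∀ e ∈ S, f a < f b → f b < f d → f d < f e → s e < s d → s d < s b → s b < s a →
      g (s e) = g (s a) → False)
    (H5 : ∀ a ∈ S, ∀ b ∈ S, ∀ d ∈ S, g (f a) = g (s a) → g (f b) = g (s b) → g (f d) = g (s d) → s a < f b → s b < f d → False)
    (H6 : ∀ a ∈ S, ∀ b ∈ S, ∀ d ∈ S, f a < f b → f b < f d → f d < s a → s a < s b → s b < s d → g (f a) = g (f d) →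
      g (f d) < g (s a) → g (s a) < g (s b) → False) :
    ∃ T ⊆ S, 22 ≤ T.card ∧ (∀ u ∈ T, g (f u) ≠ g (s u)) ∧
      ∀ u ∈ T, ∀ v ∈ T, u ≠ v → g (f u) ≠ g (f v) ∧ g (f u) ≠ g (s v) ∧ g (s u) ≠ g (f v) ∧ g (s u) ≠ g (s v) := by
  classical
  -- own letters
  obtain ⟨O, hO⟩ : ∃ O, O = S.filter (fun u => g (f u) = g (s u)) := ⟨_, rfl⟩
  have hOS : ∀ u ∈ O, u ∈ S ∧ g (f u) = g (s u) := by
    intro u hu
    rw [hO, Finset.mem_filter] at hu
    exact hu
  have own2 : ∀ γ, (O.filter (fun u => g (f u) = γ)).card ≤ 2 := by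
    intro γ
    by_contra hc
    have hmem : ∀ u ∈ O.filter (fun u => g (f u) = γ), u ∈ S ∧ g (f u) = γ ∧ g (s u) = γ := by
      intro u hu
      rw [Finset.mem_filter] at hu
      obtain ⟨h1, h2⟩ := hOS u hu.1
      exact ⟨h1, hu.2, by omega⟩
    obtain ⟨a, ha, hs⟩ := srt_card (O.filter (fun u => g (f u) = γ)) f (fun u hu v hv => hff u (hmem u hu).1 v (hmem v hv).1) 3 (by omega)
    have nest : ∀ i j : Fin 3, i < j → s (a j) < s (a i) := by
      intro i j hij
      obtain ⟨i1, i2, i3⟩ := hmem _ (ha i)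
      obtain ⟨j1, j2, j3⟩ := hmem _ (ha j)
      have h1 := hs i j hij
      by_contra h2
      have h3 : s (a i) ≠ s (a j) := fun h => by
        have := hss _ i1 _ j1 h
        rw [this] at h1
        omega
      rcases lt_or_ge (s (a i)) (f (a j)) with h4 | h4
      · exact H1 _ i1 _ j1 h4 (by rw [i3, j2])
      · have h5 := hfs' _ j1 _ i1
        exact H2 _ i1 _ j1 h1 (by omega) (by omega) (by rw [i3, j3])
    obtain ⟨a1, a2, a3⟩ := hmem _ (ha 0)
    obtain ⟨b1, b2, b3⟩ := hmem _ (ha 1)
    obtain ⟨c1, c2, c3⟩ := hmem _ (ha 2)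
    exact H3 _ a1 _ b1 _ c1 (hs 0 1 (by decide)) (hs 1 2 (by decide)) (by rw [a2, c2]) (nest 1 2 (by decide)) (nest 0 1 (by decide))
  have hO4 : O.card ≤ 4 := by
    by_contra hc
    have h1 := Finset.card_le_mul_card_image (f := fun u => g (f u)) O 2 (fun γ _ => own2 γ)
    obtain ⟨c, hc1, hc2⟩ := srt_card (O.image (fun u => g (f u))) (fun x => x) (fun u _ v _ h => h) 3 (by omega)
    have hex : ∀ i : Fin 3, ∃ u ∈ O, g (f u) = c i := by
      intro i
      have := hc1 i
      rw [Finset.mem_image] at this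
      exact this
    choose a ha hga using hex
    have key : ∀ i j : Fin 3, i < j → s (a i) < f (a j) := by
      intro i j hij
      have h3 := hc2 i j hij
      by_contra h4
      have h5 := hg (f (a j)) (s (a i)) (by omega)
      rw [← (hOS _ (ha i)).2, hga, hga] at h5
      omega
    exact H5 _ (hOS _ (ha 0)).1 _ (hOS _ (ha 1)).1 _ (hOS _ (ha 2)).1 (hOS _ (ha 0)).2 (hOS _ (ha 1)).2 (hOS _ (ha 2)).2
      (key 0 1 (by decide)) (key 1 2 (by decide))
  -- the other letters
  obtain ⟨N, hN⟩ : ∃ N, N = S.filter (fun u => ¬ g (f u) = g (s u)) := ⟨_, rfl⟩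
  have hNS : ∀ u ∈ N, u ∈ S ∧ g (f u) ≠ g (s u) := by
    intro u hu
    rw [hN, Finset.mem_filter] at hu
    exact hu
  have hNc : 286 ≤ N.card := by
    have := Finset.card_filter_add_card_filter_not (s := S) (fun u => g (f u) = g (s u))
    rw [← hO, ← hN] at this
    omega
  have hlt : ∀ u ∈ N, g (f u) < g (s u) := by
    intro u hu
    have h1 := hg (f u) (s u) (hfs u (hNS u hu).1).le
    have h2 := (hNS u hu).2
    omega
  have sec3 : ∀ γ, (N.filter (fun u => g (s u) = γ)).card ≤ 3 := by
    intro γ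
    by_contra hc
    have hmem : ∀ u ∈ N.filter (fun u => g (s u) = γ), u ∈ N ∧ u ∈ S ∧ g (s u) = γ := by
      intro u hu
      rw [Finset.mem_filter] at hu
      exact ⟨hu.1, (hNS u hu.1).1, hu.2⟩
    obtain ⟨a, ha, hs⟩ := srt_card (N.filter (fun u => g (s u) = γ)) s
      (fun u hu v hv => hss u (hmem u hu).2.1 v (hmem v hv).2.1) 4 (by omega)
    have nest : ∀ i j : Fin 4, i < j → f (a j) < f (a i) := by
      intro i j hij
      obtain ⟨i0, i1, i2⟩ := hmem _ (ha i)
      obtain ⟨j0, j1, j2⟩ := hmem _ (ha j)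
      have h1 := hs i j hij
      by_contra h2
      have h3 : f (a i) ≠ f (a j) := fun h => by
        have := hff _ i1 _ j1 h
        rw [this] at h1
        omega
      rcases lt_or_ge (s (a i)) (f (a j)) with h4 | h4
      · have h5 := hg _ _ h4.le
        have h6 := hlt _ j0
        omega
      · have h5 := hfs' _ j1 _ i1
        exact H2 _ i1 _ j1 (by omega) (by omega) h1 (by rw [i2, j2])
    obtain ⟨-, a1, a2⟩ := hmem _ (ha 0)
    obtain ⟨-, b1, b2⟩ := hmem _ (ha 1)
    obtain ⟨-, c1, c2⟩ := hmem _ (ha 2)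
    obtain ⟨-, d1, d2⟩ := hmem _ (ha 3)
    exact H4 _ d1 _ c1 _ b1 _ a1 (nest 2 3 (by decide)) (nest 1 2 (by decide)) (nest 0 1 (by decide)) (hs 0 1 (by decide))
      (hs 1 2 (by decide)) (hs 2 3 (by decide)) (by rw [a2, d2])
  have fst4 : ∀ γ, (N.filter (fun u => g (f u) = γ)).card ≤ 4 := by
    intro γ
    by_contra hc
    have hmem : ∀ u ∈ N.filter (fun u => g (f u) = γ), u ∈ N ∧ u ∈ S ∧ g (f u) = γ := by
      intro u hu
      rw [Finset.mem_filter] at hu
      exact ⟨hu.1, (hNS u hu.1).1, hu.2⟩
    obtain ⟨a, ha, hs⟩ := srt_card (N.filter (fun u => g (f u) = γ)) f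
      (fun u hu v hv => hff u (hmem u hu).2.1 v (hmem v hv).2.1) 5 (by omega)
    have hinj : ∀ i j : Fin 5, i ≠ j → s (a i) ≠ s (a j) := by
      intro i j hij h
      have h1 := hss _ (hmem _ (ha i)).2.1 _ (hmem _ (ha j)).2.1 h
      rcases lt_or_gt_of_ne hij with h2 | h2
      · have := hs _ _ h2
        rw [h1] at this
        omega
      · have := hs _ _ h2
        rw [h1] at this
        omega
    rcases es5 (fun i => s (a i)) hinj with ⟨i, j, k, h1, h2, h3, h4⟩ | ⟨i, j, k, h1, h2, h3, h4⟩
    · obtain ⟨i0, i1, i2⟩ := hmem _ (ha i)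
      obtain ⟨j0, j1, j2⟩ := hmem _ (ha j)
      obtain ⟨k0, k1, k2⟩ := hmem _ (ha k)
      have h5 := hs _ _ h1
      have h6 := hs _ _ h2
      have h7 := hlt _ i0
      have h8 : f (a k) < s (a i) := by
        by_contra h8
        have := hg _ _ (not_lt.1 h8)
        omega
      have h9 := H2 _ i1 _ j1 h5 (by omega) h3
      have h10 := hg _ _ h3.le
      exact H6 _ i1 _ j1 _ k1 h5 h6 h8 h3 h4 (by rw [i2, k2]) (by rw [k2, ← i2]; exact h7) (lt_of_le_of_ne h10 h9)
    · obtain ⟨i0, i1, i2⟩ := hmem _ (ha i)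
      obtain ⟨j0, j1, j2⟩ := hmem _ (ha j)
      obtain ⟨k0, k1, k2⟩ := hmem _ (ha k)
      exact H3 _ i1 _ j1 _ k1 (hs _ _ h1) (hs _ _ h2) (by rw [i2, k2]) h3 h4
  -- the relation
  obtain ⟨T, hT, hTc, hTr⟩ := greedy (fun u v => g (f u) = g (f v) ∨ g (f u) = g (s v) ∨ g (s u) = g (f v) ∨ g (s u) = g (s v))
    (by
      intro u v h
      rcases h with h | h | h | h
      · exact Or.inl h.symm
      · exact Or.inr (Or.inr (Or.inl h.symm))
      · exact Or.inr (Or.inl h.symm)
      · exact Or.inr (Or.inr (Or.inr h.symm))) 12 N.card N le_rfl (by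
    intro u hu W hW hr
    have hsub : W ⊆ ((N.filter (fun v => g (f v) = g (f u))).erase u ∪ N.filter (fun v => g (s v) = g (f u))) ∪
        (N.filter (fun v => g (f v) = g (s u)) ∪ (N.filter (fun v => g (s v) = g (s u))).erase u) := by
      intro v hv
      obtain ⟨h1, h2⟩ := hr v hv
      have h3 := hW hv
      simp only [Finset.mem_union, Finset.mem_erase, Finset.mem_filter]
      rcases h2 with h2 | h2 | h2 | h2
      · exact Or.inl (Or.inl ⟨h1, h3, h2.symm⟩)
      · exact Or.inl (Or.inr ⟨h3, h2.symm⟩)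
      · exact Or.inr (Or.inl ⟨h3, h2.symm⟩)
      · exact Or.inr (Or.inr ⟨h1, h3, h2.symm⟩)
    have e1 : ((N.filter (fun v => g (f v) = g (f u))).erase u).card ≤ 3 := by
      have h0 := Finset.card_erase_of_mem (s := N.filter (fun v => g (f v) = g (f u))) (a := u) (Finset.mem_filter.2 ⟨hu, rfl⟩)
      have := fst4 (g (f u))
      omega
    have e2 := sec3 (g (f u))
    have e3 := fst4 (g (s u))
    have e4 : ((N.filter (fun v => g (s v) = g (s u))).erase u).card ≤ 2 := by
      have h0 := Finset.card_erase_of_mem (s := N.filter (fun v => g (s v) = g (s u))) (a := u) (Finset.mem_filter.2 ⟨hu, rfl⟩)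
      have := sec3 (g (s u))
      omega
    have f1 := Finset.card_le_card hsub
    have f2 := Finset.card_union_le ((N.filter (fun v => g (f v) = g (f u))).erase u ∪ N.filter (fun v => g (s v) = g (f u)))
      (N.filter (fun v => g (f v) = g (s u)) ∪ (N.filter (fun v => g (s v) = g (s u))).erase u)
    have f3 := Finset.card_union_le ((N.filter (fun v => g (f v) = g (f u))).erase u) (N.filter (fun v => g (s v) = g (f u)))
    have f4 := Finset.card_union_le (N.filter (fun v => g (f v) = g (s u))) ((N.filter (fun v => g (s v) = g (s u))).erase u)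
    omega)
  refine ⟨T, fun u hu => (hNS u (hT hu)).1, by omega, fun u hu => (hNS u (hT hu)).2, ?_⟩
  intro u hu v hv huv
  have := hTr u hu v hv huv
  simp only [not_or] at this
  exact this

end NTC
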