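import Pool.Agent.helper65.NTC.Tool
import Pool.Agent.helper65.NTC.CombR

/-!
# MP_c8d30a (A), section 2: 22 isolated red letters
-/

set_option autoImplicit false

namespace NTC

open NTH

universe u
variable {Ω : Type u} {p : Ω → Ω}

section

/-- the sub-state: all mixed letters and the letters of `E`. -/
noncomputable def zz (p : Ω → Ω) (A B E : List Ω) : Ω → Bool :=
  fun t => @decide (t ∈ E ∨ p t ∈ E ∨ ¬ ((t ∈ A ∧ p t ∈ A) ∨ (t ∈ B ∧ p t ∈ B))) (Classical.propDecidable _)

theorem zz_iff {A B E : List Ω} {t : Ω} : zz p A B E t = true ↔ (t ∈ E ∨ p t ∈ E ∨ ¬ ((t ∈ A ∧ p t ∈ A) ∨ (t ∈ B ∧ p t ∈ B))) := by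
  unfold zz
  exact @decide_eq_true_iff _ (Classical.propDecidable _)

theorem zz_p (hinv : ∀ t, p (p t) = t) {A B E : List Ω} (t : Ω) : zz p A B E (p t) = zz p A B E t := by
  rw [Bool.eq_iff_iff, zz_iff, zz_iff, hinv]
  (first | grind | tauto)

theorem zz_mix {A B E : List Ω} (hG : Gd p (A, B)) {t : Ω} (h1 : t ∈ A) (h2 : p t ∈ B) : zz p A B E t = true := by
  rw [zz_iff]
  have h3 := List.disjoint_of_nodup_append hG.nd
  right; right
  rintro (⟨-, h4⟩ | ⟨h4, -⟩)
  · exact h3 h4 h2
  · exact h3 h1 h4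

theorem zz_memA {A B E : List Ω} (hG : Gd p (A, B)) {t : Ω} (h1 : t ∈ A) (h2 : zz p A B E t = true) : t ∈ E ∨ p t ∈ E ∨ p t ∈ B := by
  rw [zz_iff] at h2
  rcases h2 with h2 | h2 | h2
  · exact Or.inl h2
  · exact Or.inr (Or.inl h2)
  · right; right
    have h3 := hG.cl t (List.mem_append_left _ h1)
    rcases List.mem_append.1 h3 with h4 | h4
    · exact absurd (Or.inl ⟨h1, h4⟩) h2
    · exact h4

theorem zz_memB {A B E : List Ω} (hG : Gd p (A, B)) {t : Ω} (h1 : t ∈ B) (h2 : zz p A B E t = true) : t ∈ E ∨ p t ∈ E ∨ p t ∈ A := by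
  rw [zz_iff] at h2
  rcases h2 with h2 | h2 | h2
  · exact Or.inl h2
  · exact Or.inr (Or.inl h2)
  · right; right
    have h3 := hG.cl t (List.mem_append_right _ h1)
    rcases List.mem_append.1 h3 with h4 | h4
    · exact h4
    · exact absurd (Or.inr ⟨h1, h4⟩) h2

/-- the last certificates. -/
theorem c3_core (hinv : ∀ t, p (p t) = t) {Dr : St Ω → Prop} (hD : DrC p Dr) (hR : RedC p Dr) {c y a b d w v : Ω} {T P Q R S B : List Ω}
    (hG : Gd p (c :: T ++ (a :: b :: d :: P ++ w :: p a :: Q ++ v :: p b :: R ++ p d :: S), B)) (hB : BY p c y B) (hw : p w ∈ B) (hv : p v ∈ B) :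
    Dr (c :: T ++ (a :: b :: d :: P ++ w :: p a :: Q ++ v :: p b :: R ++ p d :: S), B) := by
  have hnd := hG.nd
  have hBnd : B.Nodup := (List.nodup_append.1 hnd).2.1
  obtain ⟨pos, hs, hpos⟩ := exists_pos B hBnd
  obtain ⟨y1, y2, y3, y4, y5⟩ := hB.pos_lt hs
  have hB0 : sg pos B 0 (B.length + 1) = B := sg_all (fun m hm => by have := hpos m hm; omega)
  -- the tokens are different
  have hdis := List.disjoint_of_nodup_append hnd
  have hyc : p c ≠ p y := by
    intro h
    have : c = y := by rw [← hinv c, h, hinv]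
    rw [← this] at y1
    exact hdis (by simp) y1
  have hyw : p w ≠ p y := by
    intro h
    have : w = y := by rw [← hinv w, h, hinv]
    rw [← this] at y1
    exact hdis (by simp) y1
  have hyv : p v ≠ p y := by
    intro h
    have : v = y := by rw [← hinv v, h, hinv]
    rw [← this] at y1
    exact hdis (by simp) y1
  have hwy : p w ≠ y := by
    intro h
    have : w = p y := by rw [← h, hinv]
    rw [← this] at y2
    exact hdis (by simp) y2
  have hvy : p v ≠ y := by
    intro h
    have : v = p y := by rw [← h, hinv]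
    rw [← this] at y2
    exact hdis (by simp) y2
  have hwv : p w ≠ p v := by
    intro h
    have : w = v := by rw [← hinv w, h, hinv]
    rw [this] at hnd
    simp only [List.nodup_append, List.nodup_cons, List.mem_append, List.mem_cons, List.cons_append, List.append_assoc] at hnd
    (first | grind | tauto)
  have hposy := hpos y y1
  have hposp := hpos _ y2
  have hposw := hpos _ hw
  have hposv := hpos _ hv
  have hposc := hpos _ y3
  by_cases h1 : pos y < pos (p w)
  · have hBw : BY p w y B := by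
      have := BY_of (a := 0) (b := B.length + 1) hs y1 y2 hw h1 y5 hyw (by omega) (by omega) (by omega)
      rwa [hB0] at this
    have e1 : c :: T ++ (a :: b :: d :: P ++ w :: p a :: Q ++ v :: p b :: R ++ p d :: S) =
        (c :: T ++ a :: b :: d :: P) ++ (w :: p a :: Q ++ v :: p b :: R ++ p d :: S) := by simp
    have e2 : (w :: p a :: Q ++ v :: p b :: R ++ p d :: S) ++ (c :: T ++ a :: b :: d :: P) =
        w :: [] ++ p a :: (Q ++ [v]) ++ p b :: (R ++ p d :: S ++ c :: T) ++ p (p a) :: p (p b) :: (d :: P) := by simp [hinv]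
    rw [e1] at hG ⊢
    have hG' := hG.rot
    apply hD.rot _ _ _ hG'
    rw [e2] at hG' ⊢
    exact hR.K2 w (p a) (p b) y _ _ _ _ B hG' hBw
  · by_cases h2 : pos y < pos (p v)
    · have hBv : BY p v y B := by
        have := BY_of (a := 0) (b := B.length + 1) hs y1 y2 hv h2 y5 hyv (by omega) (by omega) (by omega)
        rwa [hB0] at this
      have e1 : c :: T ++ (a :: b :: d :: P ++ w :: p a :: Q ++ v :: p b :: R ++ p d :: S) =
          (c :: T ++ a :: b :: d :: P ++ w :: p a :: Q) ++ (v :: p b :: R ++ p d :: S) := by simp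
      have e2 : (v :: p b :: R ++ p d :: S) ++ (c :: T ++ a :: b :: d :: P ++ w :: p a :: Q) =
          v :: [] ++ p b :: R ++ p d :: (S ++ c :: T ++ [a]) ++ p (p b) :: p (p d) :: (P ++ w :: p a :: Q) := by simp [hinv]
      rw [e1] at hG ⊢
      have hG' := hG.rot
      apply hD.rot _ _ _ hG'
      rw [e2] at hG' ⊢
      exact hR.K2 v (p b) (p d) y _ _ _ _ B hG' hBv
    · have hGr := hG.rot
      apply hD.rot _ _ _ hGr
      have e1 : (a :: b :: d :: P ++ w :: p a :: Q ++ v :: p b :: R ++ p d :: S) ++ c :: T =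
          a :: b :: d :: P ++ w :: p a :: Q ++ v :: p b :: R ++ p d :: S ++ c :: T := rfl
      have n1 : pos y ≠ pos (p w) := fun h => hwy (hs.inj hw y1 h.symm)
      have n2 : pos y ≠ pos (p v) := fun h => hvy (hs.inj hv y1 h.symm)
      have n3 : pos (p w) ≠ pos (p v) := fun h => hwv (hs.inj hw hv h)
      rcases lt_or_gt_of_ne n3 with h3 | h3
      · have e3 : B = sg pos B 0 (pos (p w)) ++ p w :: sg pos B (pos (p w)) (pos (p v)) ++ p v :: sg pos B (pos (p v)) (B.length + 1) := by
          conv_lhs => rw [← hB0, sg_split hs hw (by omega) (by omega), sg_split hs hv h3 (by omega)]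
          simp
        have hBc : BY p c y (sg pos B (pos (p v)) (B.length + 1)) :=
          BY_of hs y1 y2 y3 y4 y5 hyc (by omega) (by omega) (by omega)
        rw [e3] at hGr ⊢
        exact hR.C3a a b d w v c y P Q R S T _ _ _ hGr hBc
      · have e3 : B = sg pos B 0 (pos (p v)) ++ p v :: sg pos B (pos (p v)) (pos (p w)) ++ p w :: sg pos B (pos (p w)) (B.length + 1) := by
          conv_lhs => rw [← hB0, sg_split hs hv (by omega) (by omega), sg_split hs hw h3 (by omega)]
          simp
        have hBc : BY p c y (sg pos B (pos (p w)) (B.length + 1)) :=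
          BY_of hs y1 y2 y3 y4 y5 hyc (by omega) (by omega) (by omega)
        rw [e3] at hGr ⊢
        exact hR.C3b a b d w v c y P Q R S T _ _ _ hGr hBc

theorem ISOR : ISOR_stmt.{u} := by
  classical
  intro Ω p Dr hinv hne hD hR c y A B hG hB hF hRr
  by_contra hDr
  have hAnd : (c :: A).Nodup := (List.nodup_append.1 hG.nd).1
  obtain ⟨pos, hsc, hpos⟩ := exists_pos (c :: A) hAnd
  have hs : Srt pos A := (List.pairwise_cons.1 hsc).2
  have hc1 : ∀ t ∈ A, pos c < pos t := (List.pairwise_cons.1 hsc).1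
  have hcp := hpos c (by simp)
  obtain ⟨NN, hNN⟩ : ∃ NN, NN = (c :: A).length + 1 := ⟨_, rfl⟩
  have hposN : ∀ t ∈ A, pos t < NN := fun t ht => by
    have := hpos t (List.mem_cons_of_mem _ ht)
    omega
  obtain ⟨M, hM⟩ : ∃ M : Finset ℕ, M = (((c :: A).filter (fun t => decide (p t ∈ B))).map pos).toFinset := ⟨_, rfl⟩
  have hMmem : ∀ n, n ∈ M ↔ ∃ t ∈ c :: A, p t ∈ B ∧ pos t = n := by
    intro n
    rw [hM, List.mem_toFinset, List.mem_map]
    constructor
    · rintro ⟨t, ht, rfl⟩
      rw [List.mem_filter] at ht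
      exact ⟨t, ht.1, by simpa using ht.2, rfl⟩
    · rintro ⟨t, h1, h2, rfl⟩
      exact ⟨t, List.mem_filter.2 ⟨h1, by simpa using h2⟩, rfl⟩
  have hdis := List.disjoint_of_nodup_append hG.nd
  obtain ⟨S, hS⟩ : ∃ S : Finset Ω, S = (A.filter (fun t => decide (p t ∈ A ∧ pos t < pos (p t)))).toFinset := ⟨_, rfl⟩
  have hSmem : ∀ t, t ∈ S ↔ t ∈ A ∧ p t ∈ A ∧ pos t < pos (p t) := by
    intro t
    rw [hS, List.mem_toFinset, List.mem_filter]
    simp
  -- the number of red letters
  have hScard : 290 ≤ S.card := by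
    obtain ⟨R, hRn, hRc, hRm⟩ := hRr
    have h1 : R.toFinset ⊆ S ∪ S.image p := by
      intro t ht
      rw [List.mem_toFinset] at ht
      obtain ⟨h2, h3⟩ := hRm t ht
      have h4 : pos t ≠ pos (p t) := fun h => hne t (hs.inj h3 h2 h.symm)
      rw [Finset.mem_union, Finset.mem_image]
      rcases lt_or_gt_of_ne h4 with h5 | h5
      · exact Or.inl ((hSmem t).2 ⟨h2, h3, h5⟩)
      · exact Or.inr ⟨p t, (hSmem _).2 ⟨h3, by rw [hinv]; exact h2, by rw [hinv]; exact h5⟩, hinv t⟩
    have h2 := Finset.card_le_card h1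
    have h3 := Finset.card_union_le S (S.image p)
    have h4 := Finset.card_image_le (s := S) (f := p)
    rw [List.toFinset_card_of_nodup hRn] at h2
    omega
  -- sub-states
  have hyB := (hB.pos_lt (pos := (exists_pos B (List.nodup_append.1 hG.nd).2.1).choose) (exists_pos B (List.nodup_append.1 hG.nd).2.1).choose_spec.1)
  have hyB1 := hyB.1
  have hyB2 := hyB.2.1
  have hcB := hyB.2.2.1
  have hcz : ∀ E, zz p (c :: A) B E c = true := fun E => zz_mix hG (by simp) hcB
  have hGf : ∀ E : List Ω, Gd p (c :: A.filter (zz p (c :: A) B E), B.filter (zz p (c :: A) B E)) := by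
    intro E
    have := hG.filter (zz p (c :: A) B E) (fun t => zz_p hinv t)
    rwa [List.filter_cons_of_pos (hcz E)] at this
  have hBf : ∀ E : List Ω, BY p c y (B.filter (zz p (c :: A) B (y :: E))) := by
    intro E
    apply hB.filter
    · rw [zz_iff]; simp
    · rw [zz_iff, hinv]; simp
    · rw [zz_p hinv]; exact hcz _
  have hfin : ∀ E : List Ω, ¬ Dr (c :: A.filter (zz p (c :: A) B E), B.filter (zz p (c :: A) B E)) := by
    intro E h
    apply hDr
    apply hD.lift (zz p (c :: A) B E) _ _ hG (fun t => zz_p hinv t) (fun t h1 h2 => zz_mix hG h1 h2)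
    rwa [List.filter_cons_of_pos (hcz E)]
  have hmemL : ∀ (E : List Ω) (m : Ω), m ∈ A.filter (zz p (c :: A) B (y :: E)) → m ∈ E ∨ p m ∈ E ∨ pos m ∈ M := by
    intro E m hm
    rw [List.mem_filter] at hm
    rcases zz_memA hG (List.mem_cons_of_mem _ hm.1) hm.2 with h1 | h1 | h1
    · rcases List.mem_cons.1 h1 with h2 | h2
      · exfalso
        rw [← h2] at hyB1
        exact hdis (List.mem_cons_of_mem _ hm.1) hyB1
      · exact Or.inl h2
    · rcases List.mem_cons.1 h1 with h2 | h2
      · exfalso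
        rw [← h2, hinv] at hyB2
        exact hdis (List.mem_cons_of_mem _ hm.1) hyB2
      · exact Or.inr (Or.inl h2)
    · exact Or.inr (Or.inr ((hMmem _).2 ⟨m, List.mem_cons_of_mem _ hm.1, h1, rfl⟩))
  have hinL : ∀ (E : List Ω) (m : Ω), m ∈ A → (m ∈ E ∨ p m ∈ E) → m ∈ A.filter (zz p (c :: A) B (y :: E)) := by
    intro E m h1 h2
    rw [List.mem_filter, zz_iff]
    refine ⟨h1, ?_⟩
    rcases h2 with h2 | h2
    · exact Or.inl (List.mem_cons_of_mem _ h2)
    · exact Or.inr (Or.inl (List.mem_cons_of_mem _ h2))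
  have hall : ∀ (z : Ω → Bool), sg pos (A.filter z) (pos c) NN = A.filter z := by
    intro z
    apply sg_all
    intro m hm
    have := (List.mem_filter.1 hm).1
    exact ⟨hc1 m this, hposN m this⟩
  have hg0 : ∀ t ∈ c :: A, 0 < pos t := fun t ht => by
    have := hpos t ht
    omega
  have hMno : ∀ (t t' m : ℕ), 0 < t → gp M t = gp M t' → m ∈ M → t ≤ m → m < t' → False := fun t t' m h1 h2 h3 h4 h5 => gp_eq h2 h1 h3 h4 h5
  have memE : ∀ (E : List Ω) (m : Ω), m ∈ A.filter (zz p (c :: A) B (y :: E)) → (∃ e ∈ E, m = e ∨ m = p e) ∨ pos m ∈ M := by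
    intro E m hm
    rcases hmemL _ m hm with h1 | h1 | h1
    · exact Or.inl ⟨m, h1, Or.inl rfl⟩
    · exact Or.inl ⟨p m, h1, Or.inr (hinv m).symm⟩
    · exact Or.inr h1
  have H1 : ∀ u ∈ S, ∀ v ∈ S, pos (p u) < pos v → gp M (pos (p u)) ≠ gp M (pos v) := by
    intro u hu v hv h1 h2
    obtain ⟨u1, u2, u3⟩ := (hSmem u).1 hu
    obtain ⟨v1, v2, v3⟩ := (hSmem v).1 hv
    have hL := hs.filter (zz p (c :: A) B (y :: [u, v]))
    have mu := hinL [u, v] u u1 (by simp)
    have mu' := hinL [u, v] (p u) u2 (by simp [hinv])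
    have mv := hinL [u, v] v v1 (by simp)
    have mv' := hinL [u, v] (p v) v2 (by simp [hinv])
    have e := wv_eq (b := NN) hL [u, p u, v, p v] (pos c) (by
      intro t ht
      simp only [List.mem_cons, List.not_mem_nil, or_false] at ht
      rcases ht with rfl | rfl | rfl | rfl <;> assumption) ⟨hc1 _ u1, hposN _ u1, u3, hposN _ u2, h1, hposN _ v1, v3, hposN _ v2, trivial⟩
    have n1 : sg pos (A.filter (zz p (c :: A) B (y :: [u, v]))) (pos (p u)) (pos v) = [] := by
      apply sg_nil
      intro m hm h3 h4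
      rcases memE _ m hm with h5 | h5
      · simp only [List.mem_cons, List.not_mem_nil, or_false, exists_eq_or_imp, exists_eq_left] at h5
        rcases h5 with (rfl | rfl) | rfl | rfl <;> omega
      · exact hMno _ _ _ (hg0 _ (List.mem_cons_of_mem _ u2)) h2 h5 h3.le h4
    rw [hall] at e
    simp only [wv, n1, List.nil_append] at e
    apply hfin (y :: [u, v])
    have h3 := hGf (y :: [u, v])
    rw [e] at h3 ⊢
    have := hR.K1 c u v y (sg pos (A.filter (zz p (c :: A) B (y :: [u, v]))) (pos c) (pos u))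
      (sg pos (A.filter (zz p (c :: A) B (y :: [u, v]))) (pos u) (pos (p u)))
      (sg pos (A.filter (zz p (c :: A) B (y :: [u, v]))) (pos v) (pos (p v)))
      (sg pos (A.filter (zz p (c :: A) B (y :: [u, v]))) (pos (p v)) NN) _ (by simpa using h3) (hBf _)
    simpa using this
  have H2 : ∀ u ∈ S, ∀ v ∈ S, pos u < pos v → pos v < pos (p u) → pos (p u) < pos (p v) → gp M (pos (p u)) ≠ gp M (pos (p v)) := by
    intro u hu v hv h0 h01 h1 h2
    obtain ⟨u1, u2, u3⟩ := (hSmem u).1 hu
    obtain ⟨v1, v2, v3⟩ := (hSmem v).1 hv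
    have hL := hs.filter (zz p (c :: A) B (y :: [u, v]))
    have mu := hinL [u, v] u u1 (by simp)
    have mu' := hinL [u, v] (p u) u2 (by simp [hinv])
    have mv := hinL [u, v] v v1 (by simp)
    have mv' := hinL [u, v] (p v) v2 (by simp [hinv])
    have e := wv_eq (b := NN) hL [u, v, p u, p v] (pos c) (by
      intro t ht
      simp only [List.mem_cons, List.not_mem_nil, or_false] at ht
      rcases ht with rfl | rfl | rfl | rfl <;> assumption) ⟨hc1 _ u1, hposN _ u1, h0, hposN _ v1, h01, hposN _ u2, h1, hposN _ v2, trivial⟩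
    have n1 : sg pos (A.filter (zz p (c :: A) B (y :: [u, v]))) (pos (p u)) (pos (p v)) = [] := by
      apply sg_nil
      intro m hm h3 h4
      rcases memE _ m hm with h5 | h5
      · simp only [List.mem_cons, List.not_mem_nil, or_false, exists_eq_or_imp, exists_eq_left] at h5
        rcases h5 with (rfl | rfl) | rfl | rfl <;> omega
      · exact hMno _ _ _ (hg0 _ (List.mem_cons_of_mem _ u2)) h2 h5 h3.le h4
    rw [hall] at e
    simp only [wv, n1, List.nil_append] at e
    apply hfin (y :: [u, v])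
    have h3 := hGf (y :: [u, v])
    rw [e] at h3 ⊢
    have := hR.K2 c u v y (sg pos (A.filter (zz p (c :: A) B (y :: [u, v]))) (pos c) (pos u))
      (sg pos (A.filter (zz p (c :: A) B (y :: [u, v]))) (pos u) (pos v))
      (sg pos (A.filter (zz p (c :: A) B (y :: [u, v]))) (pos v) (pos (p u)))
      (sg pos (A.filter (zz p (c :: A) B (y :: [u, v]))) (pos (p v)) NN) _ (by simpa using h3) (hBf _)
    simpa using this
  have H3 : ∀ a ∈ S, ∀ b ∈ S, ∀ d ∈ S, pos a < pos b → pos b < pos d → gp M (pos a) = gp M (pos d) → pos (p d) < pos (p b) →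
      pos (p b) < pos (p a) → False := by
    intro a ha b hb d hd h1 h2 h3 h4 h5
    obtain ⟨a1, a2, a3⟩ := (hSmem a).1 ha
    obtain ⟨b1, b2, b3⟩ := (hSmem b).1 hb
    obtain ⟨d1, d2, d3⟩ := (hSmem d).1 hd
    have hL := hs.filter (zz p (c :: A) B (y :: [a, b, d]))
    have ma := hinL [a, b, d] a a1 (by simp)
    have ma' := hinL [a, b, d] (p a) a2 (by simp [hinv])
    have mb := hinL [a, b, d] b b1 (by simp)
    have mb' := hinL [a, b, d] (p b) b2 (by simp [hinv])
    have md := hinL [a, b, d] d d1 (by simp)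
    have md' := hinL [a, b, d] (p d) d2 (by simp [hinv])
    have e := wv_eq (b := NN) hL [a, b, d, p d, p b, p a] (pos c) (by
      intro t ht
      simp only [List.mem_cons, List.not_mem_nil, or_false] at ht
      rcases ht with rfl | rfl | rfl | rfl | rfl | rfl <;> assumption)
        ⟨hc1 _ a1, hposN _ a1, h1, hposN _ b1, h2, hposN _ d1, d3, hposN _ d2, h4, hposN _ b2, h5, hposN _ a2, trivial⟩
    have hno : ∀ m ∈ M, pos a ≤ m → m < pos d → False := fun m hm h6 h7 => hMno _ _ _ (hg0 _ (List.mem_cons_of_mem _ a1)) h3 hm h6 h7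
    have n1 : sg pos (A.filter (zz p (c :: A) B (y :: [a, b, d]))) (pos a) (pos b) = [] := by
      apply sg_nil
      intro m hm h6 h7
      rcases memE _ m hm with h8 | h8
      · simp only [List.mem_cons, List.not_mem_nil, or_false, exists_eq_or_imp, exists_eq_left] at h8
        rcases h8 with (rfl | rfl) | (rfl | rfl) | rfl | rfl <;> omega
      · exact hno _ h8 (by omega) (by omega)
    have n2 : sg pos (A.filter (zz p (c :: A) B (y :: [a, b, d]))) (pos b) (pos d) = [] := by
      apply sg_nil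
      intro m hm h6 h7
      rcases memE _ m hm with h8 | h8
      · simp only [List.mem_cons, List.not_mem_nil, or_false, exists_eq_or_imp, exists_eq_left] at h8
        rcases h8 with (rfl | rfl) | (rfl | rfl) | rfl | rfl <;> omega
      · exact hno _ h8 (by omega) (by omega)
    rw [hall] at e
    simp only [wv, n1, n2, List.nil_append] at e
    apply hfin (y :: [a, b, d])
    have h6 := hGf (y :: [a, b, d])
    rw [e] at h6 ⊢
    have := hR.N3 c a b d y (sg pos (A.filter (zz p (c :: A) B (y :: [a, b, d]))) (pos c) (pos a))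
      (sg pos (A.filter (zz p (c :: A) B (y :: [a, b, d]))) (pos d) (pos (p d)))
      (sg pos (A.filter (zz p (c :: A) B (y :: [a, b, d]))) (pos (p d)) (pos (p b)))
      (sg pos (A.filter (zz p (c :: A) B (y :: [a, b, d]))) (pos (p b)) (pos (p a)))
      (sg pos (A.filter (zz p (c :: A) B (y :: [a, b, d]))) (pos (p a)) NN) _ (by simpa using h6) (hBf _)
    simpa using this
  have H4 : ∀ a ∈ S, ∀ b ∈ S, ∀ d ∈ S, ∀ e ∈ S, pos a < pos b → pos b < pos d → pos d < pos e → pos (p e) < pos (p d) →
      pos (p d) < pos (p b) → pos (p b) < pos (p a) → gp M (pos (p e)) = gp M (pos (p a)) → False := by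
    intro a ha b hb d hd e he h1 h2 h3 h4 h5 h6 h7
    obtain ⟨a1, a2, a3⟩ := (hSmem a).1 ha
    obtain ⟨b1, b2, b3⟩ := (hSmem b).1 hb
    obtain ⟨d1, d2, d3⟩ := (hSmem d).1 hd
    obtain ⟨e1, e2, e3⟩ := (hSmem e).1 he
    have hL := hs.filter (zz p (c :: A) B (y :: [a, b, d, e]))
    have ma := hinL [a, b, d, e] a a1 (by simp)
    have ma' := hinL [a, b, d, e] (p a) a2 (by simp [hinv])
    have mb := hinL [a, b, d, e] b b1 (by simp)
    have mb' := hinL [a, b, d, e] (p b) b2 (by simp [hinv])
    have md := hinL [a, b, d, e] d d1 (by simp)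
    have md' := hinL [a, b, d, e] (p d) d2 (by simp [hinv])
    have me := hinL [a, b, d, e] e e1 (by simp)
    have me' := hinL [a, b, d, e] (p e) e2 (by simp [hinv])
    have ee := wv_eq (b := NN) hL [a, b, d, e, p e, p d, p b, p a] (pos c) (by
      intro t ht
      simp only [List.mem_cons, List.not_mem_nil, or_false] at ht
      rcases ht with rfl | rfl | rfl | rfl | rfl | rfl | rfl | rfl <;> assumption)
        ⟨hc1 _ a1, hposN _ a1, h1, hposN _ b1, h2, hposN _ d1, h3, hposN _ e1, e3, hposN _ e2, h4, hposN _ d2, h5, hposN _ b2, h6, hposN _ a2, trivial⟩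
    have hno : ∀ m ∈ M, pos (p e) ≤ m → m < pos (p a) → False := fun m hm h8 h9 => hMno _ _ _ (hg0 _ (List.mem_cons_of_mem _ e2)) h7 hm h8 h9
    have nn : ∀ a' b' : ℕ, pos (p e) ≤ a' → b' ≤ pos (p a) → (∀ n : ℕ, (n = pos a ∨ n = pos (p a) ∨ n = pos b ∨ n = pos (p b) ∨ n = pos d ∨
        n = pos (p d) ∨ n = pos e ∨ n = pos (p e)) → a' < n → n < b' → False) →
        sg pos (A.filter (zz p (c :: A) B (y :: [a, b, d, e]))) a' b' = [] := by
      intro a' b' h8 h9 h10
      apply sg_nil
      intro m hm h11 h12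
      rcases memE _ m hm with h13 | h13
      · simp only [List.mem_cons, List.not_mem_nil, or_false, exists_eq_or_imp, exists_eq_left] at h13
        refine h10 (pos m) ?_ h11 h12
        rcases h13 with (rfl | rfl) | (rfl | rfl) | (rfl | rfl) | rfl | rfl <;> (first | grind | tauto)
      · exact hno _ h13 (by omega) (by omega)
    have n1 := nn (pos (p e)) (pos (p d)) (by omega) (by omega) (by intro n hn h8 h9; omega)
    have n2 := nn (pos (p d)) (pos (p b)) (by omega) (by omega) (by intro n hn h8 h9; omega)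
    have n3 := nn (pos (p b)) (pos (p a)) (by omega) (by omega) (by intro n hn h8 h9; omega)
    rw [hall] at ee
    simp only [wv, n1, n2, n3, List.nil_append] at ee
    apply hfin (y :: [a, b, d, e])
    have h8 := hGf (y :: [a, b, d, e])
    rw [ee] at h8 ⊢
    have := hR.S4 c a b d e y (sg pos (A.filter (zz p (c :: A) B (y :: [a, b, d, e]))) (pos c) (pos a))
      (sg pos (A.filter (zz p (c :: A) B (y :: [a, b, d, e]))) (pos a) (pos b))
      (sg pos (A.filter (zz p (c :: A) B (y :: [a, b, d, e]))) (pos b) (pos d))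
      (sg pos (A.filter (zz p (c :: A) B (y :: [a, b, d, e]))) (pos d) (pos e))
      (sg pos (A.filter (zz p (c :: A) B (y :: [a, b, d, e]))) (pos e) (pos (p e)))
      (sg pos (A.filter (zz p (c :: A) B (y :: [a, b, d, e]))) (pos (p a)) NN) _ (by simpa using h8) (hBf _)
    simpa using this
  have H5 : ∀ a ∈ S, ∀ b ∈ S, ∀ d ∈ S, gp M (pos a) = gp M (pos (p a)) → gp M (pos b) = gp M (pos (p b)) → gp M (pos d) = gp M (pos (p d)) →
      pos (p a) < pos b → pos (p b) < pos d → False := by
    intro a ha b hb d hd h1 h2 h3 h4 h5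
    obtain ⟨a1, a2, a3⟩ := (hSmem a).1 ha
    obtain ⟨b1, b2, b3⟩ := (hSmem b).1 hb
    obtain ⟨d1, d2, d3⟩ := (hSmem d).1 hd
    have hL := hs.filter (zz p (c :: A) B (y :: [a, b, d]))
    have ma := hinL [a, b, d] a a1 (by simp)
    have ma' := hinL [a, b, d] (p a) a2 (by simp [hinv])
    have mb := hinL [a, b, d] b b1 (by simp)
    have mb' := hinL [a, b, d] (p b) b2 (by simp [hinv])
    have md := hinL [a, b, d] d d1 (by simp)
    have md' := hinL [a, b, d] (p d) d2 (by simp [hinv])
    have e := wv_eq (b := NN) hL [a, p a, b, p b, d, p d] (pos c) (by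
      intro t ht
      simp only [List.mem_cons, List.not_mem_nil, or_false] at ht
      rcases ht with rfl | rfl | rfl | rfl | rfl | rfl <;> assumption)
        ⟨hc1 _ a1, hposN _ a1, a3, hposN _ a2, h4, hposN _ b1, b3, hposN _ b2, h5, hposN _ d1, d3, hposN _ d2, trivial⟩
    have n1 : sg pos (A.filter (zz p (c :: A) B (y :: [a, b, d]))) (pos a) (pos (p a)) = [] := by
      apply sg_nil
      intro m hm h6 h7
      rcases memE _ m hm with h8 | h8
      · simp only [List.mem_cons, List.not_mem_nil, or_false, exists_eq_or_imp, exists_eq_left] at h8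
        rcases h8 with (rfl | rfl) | (rfl | rfl) | rfl | rfl <;> omega
      · exact hMno _ _ _ (hg0 _ (List.mem_cons_of_mem _ a1)) h1 h8 h6.le h7
    have n2 : sg pos (A.filter (zz p (c :: A) B (y :: [a, b, d]))) (pos b) (pos (p b)) = [] := by
      apply sg_nil
      intro m hm h6 h7
      rcases memE _ m hm with h8 | h8
      · simp only [List.mem_cons, List.not_mem_nil, or_false, exists_eq_or_imp, exists_eq_left] at h8
        rcases h8 with (rfl | rfl) | (rfl | rfl) | rfl | rfl <;> omega
      · exact hMno _ _ _ (hg0 _ (List.mem_cons_of_mem _ b1)) h2 h8 h6.le h7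
    have n3 : sg pos (A.filter (zz p (c :: A) B (y :: [a, b, d]))) (pos d) (pos (p d)) = [] := by
      apply sg_nil
      intro m hm h6 h7
      rcases memE _ m hm with h8 | h8
      · simp only [List.mem_cons, List.not_mem_nil, or_false, exists_eq_or_imp, exists_eq_left] at h8
        rcases h8 with (rfl | rfl) | (rfl | rfl) | rfl | rfl <;> omega
      · exact hMno _ _ _ (hg0 _ (List.mem_cons_of_mem _ d1)) h3 h8 h6.le h7
    rw [hall] at e
    simp only [wv, n1, n2, n3, List.nil_append] at e
    apply hfin (y :: [a, b, d])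
    have h6 := hGf (y :: [a, b, d])
    rw [e] at h6 ⊢
    have := hR.D3 c a b d y (sg pos (A.filter (zz p (c :: A) B (y :: [a, b, d]))) (pos c) (pos a))
      (sg pos (A.filter (zz p (c :: A) B (y :: [a, b, d]))) (pos (p a)) (pos b))
      (sg pos (A.filter (zz p (c :: A) B (y :: [a, b, d]))) (pos (p b)) (pos d))
      (sg pos (A.filter (zz p (c :: A) B (y :: [a, b, d]))) (pos (p d)) NN) _ (by simpa using h6) (hBf _)
    simpa using this
  have H6 : ∀ a ∈ S, ∀ b ∈ S, ∀ d ∈ S, pos a < pos b → pos b < pos d → pos d < pos (p a) → pos (p a) < pos (p b) → pos (p b) < pos (p d) →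
      gp M (pos a) = gp M (pos d) → gp M (pos d) < gp M (pos (p a)) → gp M (pos (p a)) < gp M (pos (p b)) → False := by
    intro a ha b hb d hd h1 h2 h3 h4 h5 h6 h7 h8
    obtain ⟨a1, a2, a3⟩ := (hSmem a).1 ha
    obtain ⟨b1, b2, b3⟩ := (hSmem b).1 hb
    obtain ⟨d1, d2, d3⟩ := (hSmem d).1 hd
    obtain ⟨w1, w2, w3⟩ := gp_ne (hg0 _ (List.mem_cons_of_mem _ d1)) h7
    obtain ⟨v1, v2, v3⟩ := gp_ne (hg0 _ (List.mem_cons_of_mem _ a2)) h8
    obtain ⟨w, hw1, hw2, hw3⟩ := (hMmem _).1 w1
    obtain ⟨v, hv1, hv2, hv3⟩ := (hMmem _).1 v1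
    have hwA : w ∈ A := by
      rcases List.mem_cons.1 hw1 with h | h
      · exfalso
        rw [h] at hw3
        have := hc1 _ d1
        omega
      · exact h
    have hvA : v ∈ A := by
      rcases List.mem_cons.1 hv1 with h | h
      · exfalso
        rw [h] at hv3
        have := hc1 _ a2
        omega
      · exact h
    have hwd : pos d ≠ pos w := by
      intro h
      have := hs.inj d1 hwA h
      rw [← this] at hw2
      exact hdis (List.mem_cons_of_mem _ d2) hw2
    have hva : pos (p a) ≠ pos v := by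
      intro h
      have := hs.inj a2 hvA h
      rw [← this, hinv] at hv2
      exact hdis (List.mem_cons_of_mem _ a1) hv2
    have hL := hs.filter (zz p (c :: A) B (y :: [a, b, d]))
    have ma := hinL [a, b, d] a a1 (by simp)
    have ma' := hinL [a, b, d] (p a) a2 (by simp [hinv])
    have mb := hinL [a, b, d] b b1 (by simp)
    have mb' := hinL [a, b, d] (p b) b2 (by simp [hinv])
    have md := hinL [a, b, d] d d1 (by simp)
    have md' := hinL [a, b, d] (p d) d2 (by simp [hinv])
    have mw : w ∈ A.filter (zz p (c :: A) B (y :: [a, b, d])) := List.mem_filter.2 ⟨hwA, zz_mix hG hw1 hw2⟩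
    have mv : v ∈ A.filter (zz p (c :: A) B (y :: [a, b, d])) := List.mem_filter.2 ⟨hvA, zz_mix hG hv1 hv2⟩
    have e := wv_eq (b := NN) hL [a, b, d, w, p a, v, p b, p d] (pos c) (by
      intro t ht
      simp only [List.mem_cons, List.not_mem_nil, or_false] at ht
      rcases ht with rfl | rfl | rfl | rfl | rfl | rfl | rfl | rfl <;> assumption)
        ⟨hc1 _ a1, hposN _ a1, h1, hposN _ b1, h2, hposN _ d1, by omega, hposN _ hwA, by omega, hposN _ a2, by omega, hposN _ hvA,
          by omega, hposN _ b2, h5, hposN _ d2, trivial⟩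
    have hno : ∀ m ∈ M, pos a ≤ m → m < pos d → False := fun m hm h6' h7' => hMno _ _ _ (hg0 _ (List.mem_cons_of_mem _ a1)) h6 hm h6' h7'
    have hno2 : ∀ m ∈ M, pos w < m → m < pos (p a) → False := fun m hm h6' h7' => by
      have := le_gp hm h7'
      omega
    have hno3 : ∀ m ∈ M, pos v < m → m < pos (p b) → False := fun m hm h6' h7' => by
      have := le_gp hm h7'
      omega
    have nn : ∀ a' b' : ℕ, (∀ m ∈ M, a' < m → m < b' → False) → (∀ n : ℕ, (n = pos a ∨ n = pos (p a) ∨ n = pos b ∨ n = pos (p b) ∨ n = pos d ∨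
        n = pos (p d)) → a' < n → n < b' → False) →
        sg pos (A.filter (zz p (c :: A) B (y :: [a, b, d]))) a' b' = [] := by
      intro a' b' h9 h10
      apply sg_nil
      intro m hm h11 h12
      rcases memE _ m hm with h13 | h13
      · simp only [List.mem_cons, List.not_mem_nil, or_false, exists_eq_or_imp, exists_eq_left] at h13
        refine h10 (pos m) ?_ h11 h12
        rcases h13 with (rfl | rfl) | (rfl | rfl) | rfl | rfl <;> (first | grind | tauto)
      · exact h9 _ h13 h11 h12
    have n1 := nn (pos a) (pos b) (fun m hm h9 h10 => hno m hm (by omega) (by omega)) (by intro n hn h8 h9; omega)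
    have n2 := nn (pos b) (pos d) (fun m hm h9 h10 => hno m hm (by omega) (by omega)) (by intro n hn h8 h9; omega)
    have n3 := nn (pos w) (pos (p a)) (fun m hm h9 h10 => hno2 m hm (by omega) (by omega)) (by intro n hn h8 h9; omega)
    have n4 := nn (pos v) (pos (p b)) (fun m hm h9 h10 => hno3 m hm (by omega) (by omega)) (by intro n hn h8 h9; omega)
    rw [hall] at e
    simp only [wv, n1, n2, n3, n4, List.nil_append] at e
    apply hfin (y :: [a, b, d])
    have h9 := hGf (y :: [a, b, d])
    rw [e] at h9 ⊢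
    have hwz : zz p (c :: A) B (y :: [a, b, d]) (p w) = true := by rw [zz_p hinv]; exact zz_mix hG hw1 hw2
    have hvz : zz p (c :: A) B (y :: [a, b, d]) (p v) = true := by rw [zz_p hinv]; exact zz_mix hG hv1 hv2
    have := c3_core hinv hD hR (c := c) (y := y) (a := a) (b := b) (d := d) (w := w) (v := v)
      (T := sg pos (A.filter (zz p (c :: A) B (y :: [a, b, d]))) (pos c) (pos a))
      (P := sg pos (A.filter (zz p (c :: A) B (y :: [a, b, d]))) (pos d) (pos w))
      (Q := sg pos (A.filter (zz p (c :: A) B (y :: [a, b, d]))) (pos (p a)) (pos v))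
      (R := sg pos (A.filter (zz p (c :: A) B (y :: [a, b, d]))) (pos (p b)) (pos (p d)))
      (S := sg pos (A.filter (zz p (c :: A) B (y :: [a, b, d]))) (pos (p d)) NN)
      (B := B.filter (zz p (c :: A) B (y :: [a, b, d]))) (by simpa using h9) (hBf _)
      (List.mem_filter.2 ⟨hw2, hwz⟩) (List.mem_filter.2 ⟨hv2, hvz⟩)
    simpa using this
  obtain ⟨T, hTS, hTc, hTo, hTr⟩ := combR S hScard pos (fun t => pos (p t)) (gp M) (fun a b h => gp_mono h) (fun u hu => ((hSmem u).1 hu).2.2)
    (fun u hu v hv h => hs.inj ((hSmem u).1 hu).1 ((hSmem v).1 hv).1 h)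
    (fun u hu v hv h => by
      have := hs.inj ((hSmem u).1 hu).2.1 ((hSmem v).1 hv).2.1 h
      rw [← hinv u, this, hinv])
    (fun u hu v hv h => by
      have h1 := hs.inj ((hSmem u).1 hu).1 ((hSmem v).1 hv).2.1 h
      have h2 := ((hSmem u).1 hu).2.2
      have h3 := ((hSmem v).1 hv).2.2
      rw [h1, hinv] at h2
      omega)
    H1 H2 H3 H4 H5 H6
  have hFT : ∀ t, (t ∈ T.toList ∨ p t ∈ T.toList) → ∃ u ∈ T, t = u ∨ t = p u := by
    intro t ht
    rcases ht with ht | ht
    · exact ⟨t, Finset.mem_toList.1 ht, Or.inl rfl⟩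
    · exact ⟨p t, Finset.mem_toList.1 ht, Or.inr (hinv t).symm⟩
  have hlen := hF T.toList (Finset.nodup_toList T) (by
    intro t ht
    rw [Finset.mem_toList] at ht
    obtain ⟨h1, h2, h3⟩ := (hSmem t).1 (hTS ht)
    refine ⟨h1, h2, ?_⟩
    intro h4
    rw [Finset.mem_toList] at h4
    obtain ⟨h5, h6, h7⟩ := (hSmem (p t)).1 (hTS h4)
    rw [hinv] at h7
    omega) (by
    intro X Y Z t t' hA ht ht'
    obtain ⟨u, hu, htu⟩ := hFT t ht
    obtain ⟨u', hu', htu'⟩ := hFT t' ht'
    obtain ⟨u1, u2, u3⟩ := (hSmem u).1 (hTS hu)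
    obtain ⟨u1', u2', u3'⟩ := (hSmem u').1 (hTS hu')
    have hlt : pos t < pos t' := by
      have h1 := hs
      rw [hA] at h1
      unfold Srt at h1
      rw [List.pairwise_append, List.pairwise_cons] at h1
      exact h1.2.1.1 _ (by simp)
    have hgne : gp M (pos t) ≠ gp M (pos t') := by
      by_cases huu : u = u'
      · subst huu
        have h1 := hTo u hu
        rcases htu with rfl | rfl <;> rcases htu' with rfl | rfl
        · omega
        · exact h1
        · exact fun h => h1 h.symm
        · omega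
      · obtain ⟨r1, r2, r3, r4⟩ := hTr u hu u' hu' huu
        rcases htu with rfl | rfl <;> rcases htu' with rfl | rfl
        · exact r1
        · exact r2
        · exact r3
        · exact r4
    have hglt : gp M (pos t) < gp M (pos t') := lt_of_le_of_ne (gp_mono hlt.le) hgne
    have htA : t ∈ A := by rw [hA]; simp
    obtain ⟨m1, m2, m3⟩ := gp_ne (hg0 _ (List.mem_cons_of_mem _ htA)) hglt
    obtain ⟨m, hm1, hm2, hm3⟩ := (hMmem _).1 m1
    refine ⟨m, ?_, hm2⟩
    have hptA : p t ∈ A := by
      rcases htu with rfl | rfl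
      · exact u2
      · rw [hinv]; exact u1
    have hmt : m ≠ t := by
      rintro rfl
      exact hdis (List.mem_cons_of_mem _ hptA) hm2
    have hmpos : pos t ≠ pos m := by
      intro h
      rcases List.mem_cons.1 hm1 with h1 | h1
      · have := hc1 _ htA
        rw [h1] at h
        omega
      · exact hmt (hs.inj h1 htA h.symm)
    have hmA : m ∈ A := by
      rcases List.mem_cons.1 hm1 with h1 | h1
      · have := hc1 _ htA
        rw [h1] at hm3
        omega
      · exact h1
    rw [hA] at hmA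
    have h1 := hs
    rw [hA] at h1
    unfold Srt at h1
    rw [List.pairwise_append, List.pairwise_cons, List.pairwise_append, List.pairwise_cons] at h1
    rcases List.mem_append.1 hmA with h2 | h2
    · have := h1.2.2 m h2 t (by simp)
      omega
    · rcases List.mem_cons.1 h2 with h3 | h3
      · exact absurd h3 hmt
      · rcases List.mem_append.1 h3 with h4 | h4
        · exact h4
        · exfalso
          rcases List.mem_cons.1 h4 with h5 | h5
          · rw [h5] at hm3
            omega
          · have := h1.2.1.2.2.1.1 m h5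
            omega)
  rw [Finset.length_toList] at hlen
  omega

end

end NTC
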