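import Pool.Agent.helper3.NTS.EM

/-!
# MP_c8d30a (A), sections 2, 3, 4: interface of the generic certificates and statements

`Dr s` is read: the number of red and blue letters of the pair of words `s = (A, B)` drops after at most 30 Thetas (and any number of rotations and
triple swaps). `A` is a cyclic word (`rot`), `B` a linear word. In the certificates small words are arbitrary, possibly empty.
-/

set_option autoImplicit false

namespace NTC

open NTH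

universe u
variable {Ω : Type u}

/-- every token once, the partners are there. -/
structure Gd (p : Ω → Ω) (s : St Ω) : Prop where
  nd : (s.1 ++ s.2).Nodup
  cl : ∀ t ∈ s.1 ++ s.2, p t ∈ s.1 ++ s.2

/-- the blue letter `y` is good for the mixed letter `c`: `i y k c h y l` or `i y h y k c l`. -/
inductive BY (p : Ω → Ω) (c y : Ω) : List Ω → Prop
  | a (I K H L : List Ω) : BY p c y (I ++ y :: K ++ p c :: H ++ p y :: L)
  | b (I H K L : List Ω) : BY p c y (I ++ y :: H ++ p y :: K ++ p c :: L)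

/-- the words of the certificate `K'`: `u v` adjacent, the other `v`, `G`, `c`; the other `u` anywhere else. -/
inductive BK (p : Ω → Ω) (c u v : Ω) : List Ω → Prop
  | a (I J K L G : List Ω) : BK p c u v (I ++ u :: v :: J ++ p v :: G ++ p c :: K ++ p u :: L)
  | b (I J K L G : List Ω) : BK p c u v (I ++ u :: v :: J ++ p u :: K ++ p v :: G ++ p c :: L)
  | c (I J K L G : List Ω) : BK p c u v (I ++ p v :: G ++ p c :: J ++ u :: v :: K ++ p u :: L)
  | d (I J K L G : List Ω) : BK p c u v (I ++ p v :: G ++ p c :: J ++ p u :: K ++ u :: v :: L)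
  | e (I J K L G : List Ω) : BK p c u v (I ++ p u :: J ++ u :: v :: K ++ p v :: G ++ p c :: L)
  | f (I J K L G : List Ω) : BK p c u v (I ++ p u :: J ++ p v :: G ++ p c :: K ++ u :: v :: L)

/-- the closure properties of `Dr`. -/
structure DrC (p : Ω → Ω) (Dr : St Ω → Prop) : Prop where
  rot : ∀ X Y B : List Ω, Gd p (X ++ Y, B) → Dr (X ++ Y, B) → Dr (Y ++ X, B)
  lift : ∀ (z : Ω → Bool) (A B : List Ω), Gd p (A, B) → (∀ t, z (p t) = z t) → (∀ t ∈ A, p t ∈ B → z t = true) →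
    Dr (A.filter z, B.filter z) → Dr (A, B)
  /-- if `Dr` holds after a triple swap, it holds before. -/
  cm : ∀ (a b c : Ω) (P Q R D P' Q' R' : List Ω), Gd p (a :: P ++ (b :: Q ++ c :: R), D ++ (p a :: P' ++ (p b :: Q' ++ p c :: R'))) →
    Dr (b :: Q ++ (a :: P ++ c :: R), D ++ (p b :: Q' ++ (p a :: P' ++ p c :: R'))) →
    Dr (a :: P ++ (b :: Q ++ c :: R), D ++ (p a :: P' ++ (p b :: Q' ++ p c :: R')))

/-- the red certificates (section 1). Moves: `K1`, `K2`: cuy yvc; `N3`: cay ydc bdy yab; `S4`: cay ybc cey dec yad; `D3`: cby yda bdc ydb;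
`C3a`: cay ybc cdv bdc cdy yac; `C3b`: cby abc wbv vda (here `a b d e` are the letters `1 2 3 4` of the page). -/
structure RedC (p : Ω → Ω) (Dr : St Ω → Prop) : Prop where
  K1 : ∀ (c u v y : Ω) (P Q R S B : List Ω), Gd p (c :: P ++ u :: Q ++ p u :: v :: R ++ p v :: S, B) → BY p c y B →
    Dr (c :: P ++ u :: Q ++ p u :: v :: R ++ p v :: S, B)
  K2 : ∀ (c u v y : Ω) (P Q R S B : List Ω), Gd p (c :: P ++ u :: Q ++ v :: R ++ p u :: p v :: S, B) → BY p c y B →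
    Dr (c :: P ++ u :: Q ++ v :: R ++ p u :: p v :: S, B)
  N3 : ∀ (c a b d y : Ω) (P Q R S T B : List Ω), Gd p (c :: P ++ a :: b :: d :: Q ++ p d :: R ++ p b :: S ++ p a :: T, B) → BY p c y B →
    Dr (c :: P ++ a :: b :: d :: Q ++ p d :: R ++ p b :: S ++ p a :: T, B)
  S4 : ∀ (c a b d e y : Ω) (P Q R S O T B : List Ω),
    Gd p (c :: P ++ a :: Q ++ b :: R ++ d :: S ++ e :: O ++ p e :: p d :: p b :: p a :: T, B) → BY p c y B →
    Dr (c :: P ++ a :: Q ++ b :: R ++ d :: S ++ e :: O ++ p e :: p d :: p b :: p a :: T, B)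
  D3 : ∀ (c a b d y : Ω) (P Q R S B : List Ω), Gd p (c :: P ++ a :: p a :: Q ++ b :: p b :: R ++ d :: p d :: S, B) → BY p c y B →
    Dr (c :: P ++ a :: p a :: Q ++ b :: p b :: R ++ d :: p d :: S, B)
  C3a : ∀ (a b d w v c y : Ω) (P Q R S T I J B : List Ω),
    Gd p (a :: b :: d :: P ++ w :: p a :: Q ++ v :: p b :: R ++ p d :: S ++ c :: T, I ++ p w :: J ++ p v :: B) → BY p c y B →
    Dr (a :: b :: d :: P ++ w :: p a :: Q ++ v :: p b :: R ++ p d :: S ++ c :: T, I ++ p w :: J ++ p v :: B)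
  C3b : ∀ (a b d w v c y : Ω) (P Q R S T I J B : List Ω),
    Gd p (a :: b :: d :: P ++ w :: p a :: Q ++ v :: p b :: R ++ p d :: S ++ c :: T, I ++ p v :: J ++ p w :: B) → BY p c y B →
    Dr (a :: b :: d :: P ++ w :: p a :: Q ++ v :: p b :: R ++ p d :: S ++ c :: T, I ++ p v :: J ++ p w :: B)

/-- the blue certificates (section 1). Moves: `K'`: cxv vxu; `N3'`: cxv wxu cxw vxc; `D3'`: cxv vwu cxv wxc; `P1`: cxv; `AL`: cxv uxd dxc cxz wxu;
`GA`: cxu dxz wxu vxc; `DE1`: axv vxb cxw wxu; `DE2`: bxv vxc axw wxu; `PA`: axu uxd dxv. -/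
structure BlueC (p : Ω → Ω) (Dr : St Ω → Prop) : Prop where
  K' : ∀ (c x u v : Ω) (P Q R B : List Ω), Gd p (c :: P ++ x :: Q ++ p x :: R, B) → BK p c u v B → Dr (c :: P ++ x :: Q ++ p x :: R, B)
  N3' : ∀ (c x u v w : Ω) (P Q R I J K L : List Ω),
    Gd p (c :: P ++ x :: Q ++ p x :: R, I ++ u :: v :: w :: J ++ p c :: K ++ p w :: p v :: p u :: L) →
    Dr (c :: P ++ x :: Q ++ p x :: R, I ++ u :: v :: w :: J ++ p c :: K ++ p w :: p v :: p u :: L)
  D3' : ∀ (c x u v w : Ω) (P Q R I H J K L : List Ω),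
    Gd p (c :: P ++ x :: Q ++ p x :: R, I ++ u :: p u :: H ++ v :: p v :: J ++ w :: p w :: K ++ p c :: L) →
    Dr (c :: P ++ x :: Q ++ p x :: R, I ++ u :: p u :: H ++ v :: p v :: J ++ w :: p w :: K ++ p c :: L)
  P1 : ∀ (c x u v : Ω) (Q R I J L : List Ω), Gd p (c :: x :: Q ++ p x :: R, I ++ u :: v :: J ++ p v :: p u :: p c :: L) →
    Dr (c :: x :: Q ++ p x :: R, I ++ u :: v :: J ++ p v :: p u :: p c :: L)
  AL : ∀ (c d x u v w z : Ω) (Q R S I K J L : List Ω),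
    Gd p (c :: d :: Q ++ x :: R ++ p x :: S, I ++ p d :: K ++ u :: v :: w :: z :: p z :: p w :: p v :: p u :: J ++ p c :: L) →
    Dr (c :: d :: Q ++ x :: R ++ p x :: S, I ++ p d :: K ++ u :: v :: w :: z :: p z :: p w :: p v :: p u :: J ++ p c :: L)
  GA : ∀ (c d x u v w z : Ω) (P Q R S I J K : List Ω),
    Gd p (c :: P ++ x :: Q ++ d :: R ++ p x :: S, u :: v :: w :: z :: p z :: p w :: p v :: p u :: I ++ p c :: J ++ p d :: K) →
    Dr (c :: P ++ x :: Q ++ d :: R ++ p x :: S, u :: v :: w :: z :: p z :: p w :: p v :: p u :: I ++ p c :: J ++ p d :: K)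
  DE1 : ∀ (a b c x u v w : Ω) (O P Q R I J K L : List Ω),
    Gd p (x :: p x :: O ++ a :: P ++ b :: Q ++ c :: R, u :: v :: w :: p w :: p v :: p u :: I ++ p a :: J ++ p c :: K ++ p b :: L) →
    Dr (x :: p x :: O ++ a :: P ++ b :: Q ++ c :: R, u :: v :: w :: p w :: p v :: p u :: I ++ p a :: J ++ p c :: K ++ p b :: L)
  DE2 : ∀ (a b c x u v w : Ω) (O P Q R I J K L : List Ω),
    Gd p (x :: p x :: O ++ a :: P ++ b :: Q ++ c :: R, u :: v :: w :: p w :: p v :: p u :: I ++ p b :: J ++ p a :: K ++ p c :: L) →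
    Dr (x :: p x :: O ++ a :: P ++ b :: Q ++ c :: R, u :: v :: w :: p w :: p v :: p u :: I ++ p b :: J ++ p a :: K ++ p c :: L)
  PA : ∀ (a d x u v : Ω) (P Q : List Ω), Gd p (x :: p x :: a :: P ++ [d], u :: v :: p v :: p u :: p a :: Q ++ [p d]) →
    (∀ t ∈ P, p t ∈ Q) → (∀ t ∈ Q, p t ∈ P) → Dr (x :: p x :: a :: P ++ [d], u :: v :: p v :: p u :: p a :: Q ++ [p d])

/-- **SECTION 2**: 290 red letters, `c` good: `D` drops or there are 22 isolated red letters. -/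
def ISOR_stmt : Prop := ∀ (Ω : Type u) (p : Ω → Ω) (Dr : St Ω → Prop), (∀ t, p (p t) = t) → (∀ t, p t ≠ t) → DrC p Dr → RedC p Dr →
  ∀ (c y : Ω) (A B : List Ω), Gd p (c :: A, B) → BY p c y B → (∀ F : List Ω, F.Nodup → (∀ t ∈ F, t ∈ A ∧ p t ∈ A ∧ p t ∉ F) →
      (∀ (X Y Z : List Ω) (t t' : Ω), A = X ++ t :: (Y ++ t' :: Z) → (t ∈ F ∨ p t ∈ F) → (t' ∈ F ∨ p t' ∈ F) → ∃ m ∈ Y, p m ∈ B) →
      F.length < 22) → (∃ R : List Ω, R.Nodup ∧ 580 ≤ R.length ∧ ∀ t ∈ R, t ∈ A ∧ p t ∈ A) → Dr (c :: A, B)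

/-- **SECTION 4**: four nested blue letters in a gap which is not the end gap. -/
def NEST_stmt : Prop := ∀ (Ω : Type u) (p : Ω → Ω) (Dr : St Ω → Prop), (∀ t, p (p t) = t) → (∀ t, p t ≠ t) → DrC p Dr → BlueC p Dr →
  ∀ (x u v w z : Ω) (A I J : List Ω), Gd p (A, I ++ u :: v :: w :: z :: p z :: p w :: p v :: p u :: J) → x ∈ A → p x ∈ A →
    (∀ t ∈ A, t = x ∨ t = p x ∨ p t ∈ I ∨ p t ∈ J) → (∀ t ∈ I ++ J, p t ∈ A) → J ≠ [] →
    Dr (A, I ++ u :: v :: w :: z :: p z :: p w :: p v :: p u :: J)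

/-- **SECTION 3**: 300 blue letters, one red letter `x`, `B` has no closed suffix: `D` drops or there are 24 isolated blue letters. -/
def ISOB_stmt : Prop := ∀ (Ω : Type u) (p : Ω → Ω) (Dr : St Ω → Prop), (∀ t, p (p t) = t) → (∀ t, p t ≠ t) → DrC p Dr → BlueC p Dr →
  ∀ (x : Ω) (A B : List Ω), Gd p (A, B) → x ∈ A → p x ∈ A → (∀ T S : List Ω, B = T ++ S → S ≠ [] → ∃ t ∈ S, p t ∉ S) →
    (∀ F : List Ω, F.Nodup → (∀ t ∈ F, t ∈ B ∧ p t ∈ B ∧ p t ∉ F) →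
      (∀ (X Y Z : List Ω) (t t' : Ω), B = X ++ t :: (Y ++ t' :: Z) → (t ∈ F ∨ p t ∈ F) → (t' ∈ F ∨ p t' ∈ F) → ∃ m ∈ Y, p m ∈ A) →
      (∀ (X Y : List Ω) (t : Ω), B = X ++ t :: Y → (t ∈ F ∨ p t ∈ F) → (∃ m ∈ X, p m ∈ A) ∧ (∃ m ∈ Y, p m ∈ A)) →
      F.length < 24) → (∃ R : List Ω, R.Nodup ∧ 600 ≤ R.length ∧ ∀ t ∈ R, t ∈ B ∧ p t ∈ B) → Dr (A, B)

end NTC
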