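import Pool.Agent.helper65.NTC.Spec

/-!
# MP_c8d30a (A): words sorted by position
-/

set_option autoImplicit false

namespace NTC

open NTH

universe u
variable {Ω : Type u} {p : Ω → Ω} {pos : Ω → ℕ}

/-- sorted by `pos`. -/
def Srt (pos : Ω → ℕ) (l : List Ω) : Prop := l.Pairwise (fun s t => pos s < pos t)

/-- the part with positions between `a` and `b`. -/
def sg (pos : Ω → ℕ) (l : List Ω) (a b : ℕ) : List Ω := l.filter (fun s => decide (a < pos s ∧ pos s < b))

theorem mem_sg {l : List Ω} {a b : ℕ} {t : Ω} : t ∈ sg pos l a b ↔ t ∈ l ∧ a < pos t ∧ pos t < b := by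
  unfold sg
  rw [List.mem_filter, decide_eq_true_iff]

theorem Srt.filter {l : List Ω} (h : Srt pos l) (z : Ω → Bool) : Srt pos (l.filter z) := List.Pairwise.filter z h

theorem Srt.sg {l : List Ω} (h : Srt pos l) (a b : ℕ) : Srt pos (sg pos l a b) := h.filter _

theorem Srt.inj {l : List Ω} (h : Srt pos l) {s t : Ω} (hs : s ∈ l) (ht : t ∈ l) (he : pos s = pos t) : s = t := by
  unfold Srt at h
  induction l with
  | nil => simp at hs
  | cons x l ih =>
    rw [List.pairwise_cons] at h
    rcases List.mem_cons.1 hs with h1 | h1 <;> rcases List.mem_cons.1 ht with h2 | h2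
    · rw [h1, h2]
    · have := h.1 _ h2
      rw [h1] at he
      omega
    · have := h.1 _ h1
      rw [h2] at he
      omega
    · exact ih h.2 h1 h2

theorem Srt.nodup {l : List Ω} (h : Srt pos l) : l.Nodup := by
  unfold Srt at h
  refine List.Pairwise.imp ?_ h
  rintro a b h1 rfl
  omega

theorem sg_nil {l : List Ω} {a b : ℕ} (h : ∀ m ∈ l, a < pos m → pos m < b → False) : sg pos l a b = [] := by
  unfold sg
  rw [List.filter_eq_nil_iff]
  intro m hm
  rw [decide_eq_true_iff]
  exact fun h1 => h m hm h1.1 h1.2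

theorem sg_all {l : List Ω} {a b : ℕ} (h : ∀ m ∈ l, a < pos m ∧ pos m < b) : sg pos l a b = l := by
  unfold sg
  rw [List.filter_eq_self]
  intro m hm
  rw [decide_eq_true_iff]
  exact h m hm

theorem sg_split {l : List Ω} (h : Srt pos l) {t : Ω} (ht : t ∈ l) {a b : ℕ} (h1 : a < pos t) (h2 : pos t < b) :
    sg pos l a b = sg pos l a (pos t) ++ t :: sg pos l (pos t) b := by
  unfold Srt at h
  induction l with
  | nil => simp at ht
  | cons x l ih =>
    rw [List.pairwise_cons] at h
    rcases List.mem_cons.1 ht with rfl | ht'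
    · have e1 : sg pos (t :: l) a (pos t) = [] := by
        apply sg_nil
        intro m hm h3 h4
        rcases List.mem_cons.1 hm with rfl | hm
        · omega
        · have := h.1 _ hm
          omega
      have e2 : sg pos (t :: l) (pos t) b = sg pos l (pos t) b := by
        unfold sg
        rw [List.filter_cons_of_neg (by simp)]
      have e3 : sg pos (t :: l) a b = t :: sg pos l a b := by
        unfold sg
        rw [List.filter_cons_of_pos (by simp; exact ⟨h1, h2⟩)]
      have e4 : sg pos l a b = sg pos l (pos t) b := by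
        unfold sg
        apply List.filter_congr
        intro m hm
        have := h.1 _ hm
        rw [decide_eq_decide]
        omega
      rw [e1, e2, e3, e4]
      rfl
    · have h5 := h.1 _ ht'
      have e2 : sg pos (x :: l) (pos t) b = sg pos l (pos t) b := by
        unfold sg
        rw [List.filter_cons_of_neg (by rw [decide_eq_true_iff]; omega)]
      rw [e2]
      by_cases hx : a < pos x
      · have e3 : sg pos (x :: l) a b = x :: sg pos l a b := by
          unfold sg
          rw [List.filter_cons_of_pos (by rw [decide_eq_true_iff]; omega)]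
        have e4 : sg pos (x :: l) a (pos t) = x :: sg pos l a (pos t) := by
          unfold sg
          rw [List.filter_cons_of_pos (by rw [decide_eq_true_iff]; omega)]
        rw [e3, e4, ih h.2 ht']
        rfl
      · have e3 : sg pos (x :: l) a b = sg pos l a b := by
          unfold sg
          rw [List.filter_cons_of_neg (by rw [decide_eq_true_iff]; omega)]
        have e4 : sg pos (x :: l) a (pos t) = sg pos l a (pos t) := by
          unfold sg
          rw [List.filter_cons_of_neg (by rw [decide_eq_true_iff]; omega)]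
        rw [e3, e4, ih h.2 ht']

/-- the tokens `ts` are in this order between `a` and `b`. -/
def okc (pos : Ω → ℕ) (b : ℕ) : ℕ → List Ω → Prop
  | _, [] => True
  | a, t :: ts => a < pos t ∧ pos t < b ∧ okc pos b (pos t) ts

/-- the word cut at the tokens `ts`. -/
def wv (pos : Ω → ℕ) (l : List Ω) (b : ℕ) : ℕ → List Ω → List Ω
  | a, [] => sg pos l a b
  | a, t :: ts => sg pos l a (pos t) ++ t :: wv pos l b (pos t) ts

theorem wv_eq {l : List Ω} (h : Srt pos l) {b : ℕ} (ts : List Ω) : ∀ a : ℕ, (∀ t ∈ ts, t ∈ l) → okc pos b a ts → sg pos l a b = wv pos l b a ts := by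
  induction ts with
  | nil => intro a _ _; rfl
  | cons t ts ih =>
    intro a h1 h2
    obtain ⟨h3, h4, h5⟩ := h2
    rw [sg_split h (h1 t (by simp)) h3 h4, ih (pos t) (fun s hs => h1 s (List.mem_cons_of_mem _ hs)) h5]
    rfl

/-- positions of a word without repetitions. -/
theorem exists_pos (l : List Ω) (h : l.Nodup) : ∃ pos : Ω → ℕ, Srt pos l ∧ ∀ t ∈ l, 1 ≤ pos t ∧ pos t ≤ l.length := by
  classical
  refine ⟨fun t => l.idxOf t + 1, ?_, ?_⟩
  · unfold Srt
    rw [List.pairwise_iff_getElem]
    intro i j hi hj hij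
    show List.idxOf l[i] l + 1 < List.idxOf l[j] l + 1
    rw [h.idxOf_getElem, h.idxOf_getElem]
    omega
  · intro t ht
    have := List.idxOf_lt_length_of_mem ht
    show 1 ≤ List.idxOf t l + 1 ∧ List.idxOf t l + 1 ≤ l.length
    omega

theorem Gd.filter {A B : List Ω} (h : Gd p (A, B)) (z : Ω → Bool) (hz : ∀ t, z (p t) = z t) : Gd p (A.filter z, B.filter z) := by
  refine ⟨?_, ?_⟩
  · have := h.nd.filter z
    simpa using this
  · intro t ht
    have h1 : t ∈ A ++ B ∧ z t = true := by
      have := ht
      simp only [List.mem_append, List.mem_filter] at this ⊢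
      tauto
    have h2 := h.cl t h1.1
    simp only [List.mem_append, List.mem_filter] at h2 ⊢
    rw [hz t]
    tauto

theorem Gd.rot {X Y B : List Ω} (h : Gd p (X ++ Y, B)) : Gd p (Y ++ X, B) := by
  have hp : ((X ++ Y) ++ B).Perm ((Y ++ X) ++ B) := List.Perm.append_right _ List.perm_append_comm
  refine ⟨(hp.nodup_iff).1 h.nd, ?_⟩
  intro t ht
  exact (hp.mem_iff).1 (h.cl t ((hp.mem_iff).2 ht))

theorem BY.filter {c y : Ω} {B : List Ω} (h : BY p c y B) (z : Ω → Bool) (h1 : z y = true) (h2 : z (p y) = true) (h3 : z (p c) = true) :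
    BY p c y (B.filter z) := by
  cases h with
  | a I K H L =>
    have := BY.a (p := p) (c := c) (y := y) (I.filter z) (K.filter z) (H.filter z) (L.filter z)
    simpa [List.filter_append, List.filter_cons, h1, h2, h3] using this
  | b I H K L =>
    have := BY.b (p := p) (c := c) (y := y) (I.filter z) (H.filter z) (K.filter z) (L.filter z)
    simpa [List.filter_append, List.filter_cons, h1, h2, h3] using this

theorem BY.pos_lt {c y : Ω} {B : List Ω} (h : BY p c y B) (hs : Srt pos B) : y ∈ B ∧ p y ∈ B ∧ p c ∈ B ∧ pos y < pos (p c) ∧ pos y < pos (p y) := by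
  unfold Srt at hs
  cases h with
  | a I K H L =>
    simp only [List.pairwise_append, List.pairwise_cons, List.mem_append, List.mem_cons, List.append_assoc, List.cons_append] at hs
    exact ⟨by simp, by simp, by simp, hs.2.1.1 _ (by simp), hs.2.1.1 _ (by simp)⟩
  | b I H K L =>
    simp only [List.pairwise_append, List.pairwise_cons, List.mem_append, List.mem_cons, List.append_assoc, List.cons_append] at hs
    exact ⟨by simp, by simp, by simp, hs.2.1.1 _ (by simp), hs.2.1.1 _ (by simp)⟩

theorem BY_of {c y : Ω} {B : List Ω} (hs : Srt pos B) {a b : ℕ} (h1 : y ∈ B) (h2 : p y ∈ B) (h3 : p c ∈ B) (h4 : pos y < pos (p c))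
    (h5 : pos y < pos (p y)) (h6 : p c ≠ p y) (ha : a < pos y) (hb : pos (p y) < b) (hb' : pos (p c) < b) : BY p c y (sg pos B a b) := by
  have h7 : pos (p c) ≠ pos (p y) := fun h => h6 (hs.inj h3 h2 h)
  rcases lt_or_gt_of_ne h7 with h8 | h8
  · rw [sg_split hs h1 ha (by omega), sg_split hs h3 h4 hb', sg_split hs h2 h8 hb]
    have := BY.a (p := p) (c := c) (y := y) (sg pos B a (pos y)) (sg pos B (pos y) (pos (p c))) (sg pos B (pos (p c)) (pos (p y)))
      (sg pos B (pos (p y)) b)
    simpa using this
  · rw [sg_split hs h1 ha (by omega), sg_split hs h2 h5 hb, sg_split hs h3 h8 hb']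
    have := BY.b (p := p) (c := c) (y := y) (sg pos B a (pos y)) (sg pos B (pos y) (pos (p y))) (sg pos B (pos (p y)) (pos (p c)))
      (sg pos B (pos (p c)) b)
    simpa using this

/-! ## Gaps -/

/-- the last position in `M` before `n` (or `0`). -/
def gp (M : Finset ℕ) (n : ℕ) : ℕ := (M.filter (fun m => m < n)).sup id

theorem gp_mono {M : Finset ℕ} {n n' : ℕ} (h : n ≤ n') : gp M n ≤ gp M n' := by
  unfold gp
  apply Finset.sup_mono
  intro m hm
  rw [Finset.mem_filter] at hm ⊢
  exact ⟨hm.1, by omega⟩

theorem le_gp {M : Finset ℕ} {m n : ℕ} (h : m ∈ M) (h' : m < n) : m ≤ gp M n := by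
  unfold gp
  exact Finset.le_sup (f := id) (Finset.mem_filter.2 ⟨h, h'⟩)

theorem gp_lt {M : Finset ℕ} {n : ℕ} (h : 0 < n) : gp M n < n := by
  unfold gp
  rw [Finset.sup_lt_iff (by simpa using h)]
  intro b hb
  exact (Finset.mem_filter.1 hb).2

theorem gp_mem {M : Finset ℕ} {n : ℕ} (h : gp M n ≠ 0) : gp M n ∈ M := by
  unfold gp at h ⊢
  have hne : (M.filter (fun m => m < n)).Nonempty := by
    by_contra h1
    rw [Finset.not_nonempty_iff_eq_empty] at h1
    rw [h1] at h
    exact h rfl
  obtain ⟨m, hm, he⟩ := Finset.exists_mem_eq_sup _ hne id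
  rw [he]
  exact (Finset.mem_filter.1 hm).1

theorem gp_eq {M : Finset ℕ} {m n n' : ℕ} (h : gp M n = gp M n') (hn : 0 < n) (hm : m ∈ M) (h1 : n ≤ m) (h2 : m < n') : False := by
  have h3 := le_gp hm h2
  have h4 := gp_lt (M := M) hn
  omega

theorem gp_ne {M : Finset ℕ} {n n' : ℕ} (hn : 0 < n) (h : gp M n < gp M n') : gp M n' ∈ M ∧ n ≤ gp M n' ∧ gp M n' < n' := by
  have h0 := gp_lt (M := M) hn
  have h1 : gp M n' ∈ M := gp_mem (by omega)
  have hn' : 0 < n' := by
    rcases Nat.eq_zero_or_pos n' with rfl | h2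
    · exfalso
      unfold gp at h
      simp at h
    · exact h2
  have h2 := gp_lt (M := M) hn'
  refine ⟨h1, ?_, h2⟩
  by_contra h3
  have := le_gp (n := n) h1 (by omega)
  omega

end NTC
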